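import Mathlib.Analysis.Normed.Module.Basic
import Mathlib.Analysis.Convex.Hull

set_option autoImplicit false

namespace Pool.Agent.MP_937632_gt

/-- The shadow of the Vietoris-Rips complex of `S` at scale `β`: the union of the convex hulls of
the nonempty finite subsets of `S` of diameter less than `β`. -/
def shadow {E : Type*} [NormedAddCommGroup E] [NormedSpace ℝ E] (β : ℝ) (S : Set E) : Set E :=
  ⋃ σ ∈ {σ : Set E | σ.Finite ∧ σ.Nonempty ∧ σ ⊆ S ∧ Metric.diam σ < β}, convexHull ℝ σ

end Pool.Agent.MP_937632_gt
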