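import Mathlib.Algebra.Module.Torsion.Prod
import Mathlib.RingTheory.Flat.TorsionFree
import Mathlib.Algebra.Order.Star.Real
import Mathlib.Analysis.Complex.Polynomial.Basic
import Mathlib.RingTheory.Finiteness.ModuleFinitePresentation
import Mathlib.Analysis.SpecialFunctions.Trigonometric.Deriv
import Mathlib.Analysis.CStarAlgebra.Classes
import Mathlib.Analysis.SpecialFunctions.SmoothTransition
import Mathlib.Analysis.SpecialFunctions.Trigonometric.Arctan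
import Mathlib.Analysis.Complex.CoveringMap
import Mathlib.Topology.Homotopy.Lifting
import Mathlib.RingTheory.PiTensorProduct
import Mathlib.RingTheory.SimpleRing.Principal
import Mathlib.RingTheory.TotallySplit
import Mathlib.RingTheory.Etale.Weakly
import Pool.Agent.MP_937632_gt.Defs

-- ======== part 0: formerly Pool.Agent.MP_937632_gt.Bundle
section MrgPart0

/-!
Sections of the tautological line bundle pulled back along a map to the 2-sphere.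
A compact space homotopy equivalent to a simple closed curve carries only trivial such bundles.
-/

set_option autoImplicit false

open Set Topology Filter ComplexConjugate

namespace Pool.Agent.MP_937632_gt

/-- The unit sphere in `ℂ × ℝ`. -/
def OnSphere (n : ℂ × ℝ) : Prop := Complex.normSq n.1 + n.2 ^ 2 = 1

/-- The complex line attached to a point of the sphere. -/
def InLine (n : ℂ × ℝ) (ξ : ℂ × ℂ) : Prop :=
  n.1 * ξ.1 = (1 + n.2) * ξ.2 ∧ conj n.1 * ξ.2 = (1 - n.2) * ξ.1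

/-- The pulled back line bundle has a nowhere vanishing section. -/
def HasSec {Y : Type*} [TopologicalSpace Y] (F : Y → ℂ × ℝ) : Prop :=
  ∃ ξ : Y → ℂ × ℂ, Continuous ξ ∧ ∀ y, ξ y ≠ 0 ∧ InLine (F y) (ξ y)

/-- Twice the orthogonal projection onto the line. -/
def proj (n : ℂ × ℝ) (ξ : ℂ × ℂ) : ℂ × ℂ :=
  ((1 + n.2) * ξ.1 + conj n.1 * ξ.2, n.1 * ξ.1 + (1 - n.2) * ξ.2)

theorem OnSphere.mul_conj {n : ℂ × ℝ} (h : OnSphere n) :
    n.1 * conj n.1 = (1 - n.2) * (1 + n.2) := by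
  rw [Complex.mul_conj]
  have : Complex.normSq n.1 = (1 - n.2) * (1 + n.2) := by
    unfold OnSphere at h; linarith
  rw [this]; push_cast; ring

theorem proj_inLine {n : ℂ × ℝ} (h : OnSphere n) (ξ : ℂ × ℂ) : InLine n (proj n ξ) := by
  have := h.mul_conj
  constructor
  · simp only [proj]; linear_combination ξ.2 * this
  · simp only [proj]; linear_combination ξ.1 * this

theorem proj_ne_zero {n n' : ℂ × ℝ} {ξ : ℂ × ℂ} (h : InLine n ξ) (hξ : ξ ≠ 0) (hn : n' ≠ -n) :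
    proj n' ξ ≠ 0 := by
  intro h0
  have h1 : (1 + n'.2) * ξ.1 + conj n'.1 * ξ.2 = 0 := congrArg Prod.fst h0
  have h2 : n'.1 * ξ.1 + (1 - n'.2) * ξ.2 = 0 := congrArg Prod.snd h0
  obtain ⟨h3, h4⟩ := h
  set u := n.1 + n'.1 with hu
  set k := n.2 + n'.2 with hk
  have e1 : u * ξ.1 = k * ξ.2 := by
    rw [hu, hk]; push_cast; linear_combination h2 + h3
  have e2 : conj u * ξ.2 = -k * ξ.1 := by
    rw [hu, hk, map_add]; push_cast; linear_combination h1 + h4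
  have hc : u * conj u = (Complex.normSq u : ℂ) := Complex.mul_conj u
  have e3 : ((Complex.normSq u + k ^ 2 : ℝ) : ℂ) * ξ.1 = 0 := by
    push_cast; linear_combination conj u * e1 + k * e2 - ξ.1 * hc
  have e4 : ((Complex.normSq u + k ^ 2 : ℝ) : ℂ) * ξ.2 = 0 := by
    push_cast; linear_combination u * e2 - k * e1 - ξ.2 * hc
  have e5 : Complex.normSq u + k ^ 2 = 0 := by
    by_contra hne
    have hne' : ((Complex.normSq u + k ^ 2 : ℝ) : ℂ) ≠ 0 := by exact_mod_cast hne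
    apply hξ
    exact Prod.ext ((mul_eq_zero.1 e3).resolve_left hne') ((mul_eq_zero.1 e4).resolve_left hne')
  have hu0 : Complex.normSq u = 0 := by nlinarith [Complex.normSq_nonneg u, sq_nonneg k]
  have hk0 : k = 0 := by nlinarith [Complex.normSq_nonneg u, sq_nonneg k]
  apply hn
  rw [Complex.normSq_eq_zero] at hu0
  apply Prod.ext
  · simp only [Prod.fst_neg]; linear_combination hu0
  · simp only [Prod.snd_neg]; linarith

theorem HasSec.transport {Y : Type*} [TopologicalSpace Y] {F F' : Y → ℂ × ℝ} (h : HasSec F)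
    (hF' : Continuous F') (hs : ∀ y, OnSphere (F' y)) (hne : ∀ y, F' y ≠ -F y) : HasSec F' := by
  obtain ⟨ξ, hξ, h⟩ := h
  refine ⟨fun y => proj (F' y) (ξ y), ?_, fun y =>
    ⟨proj_ne_zero (h y).2 (h y).1 (hne y), proj_inLine (hs y) _⟩⟩
  unfold proj
  fun_prop

theorem OnSphere.ne_neg {n : ℂ × ℝ} (h : OnSphere n) : n ≠ -n := by
  intro e
  have h1 : n.1 = -n.1 := congrArg Prod.fst e
  have h2 : n.2 = -n.2 := congrArg Prod.snd e
  have h3 : n.1 = 0 := by linear_combination h1 / 2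
  have h4 : n.2 = 0 := by linarith
  unfold OnSphere at h
  simp [h3, h4] at h

theorem HasSec.homotopy {Y : Type*} [TopologicalSpace Y] [CompactSpace Y]
    (H : unitInterval × Y → ℂ × ℝ) (hH : Continuous H) (hs : ∀ z, OnSphere (H z))
    (h0 : HasSec fun y => H (0, y)) : HasSec fun y => H (1, y) := by
  have hlc : IsLocallyConstant fun t : unitInterval => HasSec fun y => H (t, y) := by
    rw [IsLocallyConstant.iff_eventually_eq]
    intro t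
    have h1 : ∀ᶠ s in 𝓝 t, ∀ y ∈ (univ : Set Y), H (s, y) ≠ -H (t, y) := by
      apply isCompact_univ.eventually_forall_of_forall_eventually
      intro y _
      have hc : Continuous fun z : unitInterval × Y => H z + H (t, z.2) := by fun_prop
      have : ∀ᶠ z in 𝓝 (t, y), H z + H (t, z.2) ≠ 0 := by
        apply hc.continuousAt.eventually_ne
        intro h
        exact (hs (t, y)).ne_neg (eq_neg_of_add_eq_zero_left h)
      filter_upwards [this] with z hz h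
      exact hz (by rw [← Prod.mk.eta (p := z), h]; simp)
    filter_upwards [h1] with s hs'
    apply propext
    constructor
    · intro h
      refine h.transport (by fun_prop) (fun y => hs _) fun y e => hs' y trivial ?_
      rw [e, neg_neg]
    · intro h
      exact h.transport (by fun_prop) (fun y => hs _) fun y => hs' y trivial
  have := hlc.apply_eq_of_preconnectedSpace 0 1
  exact this ▸ h0

theorem exists_inLine {n : ℂ × ℝ} (h : OnSphere n) : ∃ ξ, ξ ≠ 0 ∧ InLine n ξ := by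
  by_cases h1 : proj n (1, 0) = 0
  · refine ⟨proj n (0, 1), fun h2 => ?_, proj_inLine h _⟩
    have e1 : (1 + n.2 : ℂ) * 1 + conj n.1 * 0 = 0 := congrArg Prod.fst h1
    have e2 : n.1 * 0 + (1 - n.2 : ℂ) * 1 = 0 := congrArg Prod.snd h2
    have : (2 : ℂ) = 0 := by linear_combination e1 + e2
    norm_num at this
  · exact ⟨_, h1, proj_inLine h _⟩

theorem InLine.exists_smul {n : ℂ × ℝ} {ξ ξ' : ℂ × ℂ} (h : InLine n ξ) (h' : InLine n ξ')
    (h0 : ξ ≠ 0) (h0' : ξ' ≠ 0) : ∃ w : ℂ, ξ = Complex.exp w • ξ' := by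
  have key : ∃ c : ℂ, ξ = c • ξ' := by
    by_cases hp : (1 + n.2 : ℂ) = 0
    · have hm : (1 - n.2 : ℂ) ≠ 0 := by
        intro hm
        have : (2 : ℂ) = 0 := by linear_combination hp + hm
        norm_num at this
      have h2 : ξ'.2 ≠ 0 := by
        intro h2
        apply h0'
        have := h'.2
        rw [h2, mul_zero] at this
        exact Prod.ext ((mul_eq_zero.1 this.symm).resolve_left hm) h2
      refine ⟨ξ.2 / ξ'.2, Prod.ext ?_ ?_⟩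
      · simp only [Prod.smul_fst, smul_eq_mul]
        field_simp
        apply mul_left_cancel₀ hm
        linear_combination ξ.2 * h'.2 - ξ'.2 * h.2
      · simp only [Prod.smul_snd, smul_eq_mul]
        field_simp
    · have h1 : ξ'.1 ≠ 0 := by
        intro h1
        apply h0'
        have := h'.1
        rw [h1, mul_zero] at this
        exact Prod.ext h1 ((mul_eq_zero.1 this.symm).resolve_left hp)
      refine ⟨ξ.1 / ξ'.1, Prod.ext ?_ ?_⟩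
      · simp only [Prod.smul_fst, smul_eq_mul]
        field_simp
      · simp only [Prod.smul_snd, smul_eq_mul]
        field_simp
        apply mul_left_cancel₀ hp
        linear_combination ξ.1 * h'.1 - ξ'.1 * h.1
  obtain ⟨c, rfl⟩ := key
  have hc : c ≠ 0 := by
    rintro rfl
    exact h0 (zero_smul _ _)
  exact ⟨Complex.log c, by rw [Complex.exp_log hc]⟩

theorem InLine.smul {n : ℂ × ℝ} {ξ : ℂ × ℂ} (h : InLine n ξ) (c : ℂ) : InLine n (c • ξ) := by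
  constructor
  · simp only [Prod.smul_fst, Prod.smul_snd, smul_eq_mul]; linear_combination c * h.1
  · simp only [Prod.smul_fst, Prod.smul_snd, smul_eq_mul]; linear_combination c * h.2

theorem hasSec_curve {E : Type*} [TopologicalSpace E] [T2Space E] (γ : ℝ → E) (hγ : Continuous γ)
    (hper : Function.Periodic γ 1) (hinj : InjOn γ (Ico 0 1)) (F : range γ → ℂ × ℝ)
    (hF : Continuous F) (hs : ∀ y, OnSphere (F y)) : HasSec F := by
  let π : unitInterval → range γ := fun t => ⟨γ t, t, rfl⟩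
  have hπ : Continuous π := by fun_prop
  have hπs : Function.Surjective π := by
    rintro ⟨_, t, rfl⟩
    refine ⟨⟨Int.fract t, Int.fract_nonneg t, (Int.fract_lt_one t).le⟩, Subtype.ext ?_⟩
    show γ (Int.fract t) = γ t
    have := hper.sub_int_mul_eq (x := t) ⌊t⌋
    rw [mul_one] at this
    exact this
  have h01 : π 0 = π 1 := by
    apply Subtype.ext
    have := hper 0
    rw [zero_add] at this
    exact this.symm
  have h1 : HasSec fun t : unitInterval => F (π (1 * t)) := by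
    apply HasSec.homotopy (fun z : unitInterval × unitInterval => F (π (z.1 * z.2))) (by fun_prop)
      (fun z => hs _)
    obtain ⟨ξ, h0, h⟩ := exists_inLine (hs (π 0))
    refine ⟨fun _ => ξ, continuous_const, fun y => ⟨h0, ?_⟩⟩
    simpa using h
  obtain ⟨ξ, hξ, h⟩ := h1
  simp only [one_mul] at h
  obtain ⟨w, hw⟩ := (h 0).2.exists_smul (h01 ▸ (h 1).2) (h 0).1 (h 1).1
  let ξ' : unitInterval → ℂ × ℂ := fun t => Complex.exp ((t : ℝ) * w) • ξ t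
  have hξ' : Continuous ξ' := by fun_prop
  have hfib : ∀ s t, π s = π t → ξ' s = ξ' t := by
    have h10 : ξ' 1 = ξ' 0 := by simp [ξ', hw]
    have key : ∀ s : unitInterval, ∃ s' : unitInterval, (s' : ℝ) ∈ Ico (0 : ℝ) 1 ∧ π s' = π s ∧
        ξ' s' = ξ' s := by
      intro s
      by_cases hs1 : s = 1
      · exact ⟨0, by simp, by rw [hs1, h01], by rw [hs1, h10]⟩
      · exact ⟨s, ⟨s.2.1, lt_of_le_of_ne s.2.2 fun e => hs1 (Subtype.ext e)⟩, rfl, rfl⟩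
    intro s t hst
    obtain ⟨s', hs', e1, e2⟩ := key s
    obtain ⟨t', ht', e3, e4⟩ := key t
    have : s' = t' := Subtype.ext (hinj hs' ht' (congrArg Subtype.val (e1.trans (hst.trans e3.symm))))
    rw [← e2, ← e4, this]
  have hq : IsQuotientMap π := hπ.isClosedMap.isQuotientMap hπ hπs
  have hcomp : (fun y => ξ' (Function.surjInv hπs y)) ∘ π = ξ' := by
    funext t
    exact hfib _ _ (Function.surjInv_eq hπs _)
  refine ⟨fun y => ξ' (Function.surjInv hπs y), ?_, fun y => ⟨?_, ?_⟩⟩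
  · rw [hq.continuous_iff, hcomp]; exact hξ'
  · exact smul_ne_zero (Complex.exp_ne_zero _) (h _).1
  · have := (h (Function.surjInv hπs y)).2.smul 
      (Complex.exp (((Function.surjInv hπs y : unitInterval) : ℝ) * w))
    rwa [Function.surjInv_eq hπs] at this

theorem hasSec_of_equiv {X E : Type*} [TopologicalSpace X] [CompactSpace X] [TopologicalSpace E]
    [T2Space E] (γ : ℝ → E) (hγ : Continuous γ) (hper : Function.Periodic γ 1)
    (hinj : InjOn γ (Ico 0 1)) (e : ContinuousMap.HomotopyEquiv X (range γ)) (F : X → ℂ × ℝ)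
    (hF : Continuous F) (hs : ∀ y, OnSphere (F y)) : HasSec F := by
  obtain ⟨H⟩ := e.left_inv
  obtain ⟨ξ, hξ, h⟩ := hasSec_curve γ hγ hper hinj (F ∘ e.invFun) (by fun_prop) (fun y => hs _)
  have := HasSec.homotopy (fun z : unitInterval × X => F (H z)) (by fun_prop) (fun z => hs _)
    ⟨ξ ∘ e.toFun, by fun_prop, fun y => by simpa using h (e.toFun y)⟩
  simpa using this

end Pool.Agent.MP_937632_gt

end MrgPart0

-- ======== part 1: formerly Pool.Agent.MP_937632_gt.Four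
section MrgPart1

/-!
A compact set covered by four closed sets with empty common intersection, arranged like the faces
of a tetrahedron, is not homotopy equivalent to a simple closed curve.
-/

set_option autoImplicit false

open Set Topology Filter ComplexConjugate Metric

namespace Pool.Agent.MP_937632_gt

theorem exists_log {Y : Type*} [TopologicalSpace Y] (H : unitInterval × Y → ℂ) (hH : Continuous H)
    (hne : ∀ z, H z ≠ 0) (c : ℂ) (h0 : ∀ y, H (0, y) = c) :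
    ∃ l : Y → ℂ, Continuous l ∧ ∀ y, Complex.exp (l y) = H (1, y) := by
  let H' : C(unitInterval × Y, {z : ℂ // z ≠ 0}) := ⟨fun z => ⟨H z, hne z⟩, by fun_prop⟩
  have h0' : ∀ y, H' (0, y) = (fun z : ℂ => (⟨_, z.exp_ne_zero⟩ : {z : ℂ // z ≠ 0}))
      ((ContinuousMap.const Y (Complex.log c)) y) := by
    intro y
    apply Subtype.ext
    show H (0, y) = Complex.exp (Complex.log c)
    rw [Complex.exp_log (h0 y ▸ hne _), h0]
  refine ⟨fun y => Complex.isCoveringMap_exp.liftHomotopy H' _ h0' (1, y), by fun_prop, fun y => ?_⟩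
  exact congrArg Subtype.val (congrFun (Complex.isCoveringMap_exp.liftHomotopy_lifts H' _ h0') (1, y))

theorem log_diff (L g : unitInterval → ℂ) (hL : Continuous L) (hg : Continuous g)
    (h : ∀ t, Complex.exp (L t) = Complex.exp (g t)) : L 1 - g 1 = L 0 - g 0 := by
  refine Complex.isCoveringMap_exp.const_of_comp (g := fun t => L t - g t) (by fun_prop) ?_ 1 0
  intro a a'
  apply Subtype.ext
  show Complex.exp (L a - g a) = Complex.exp (L a' - g a')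
  rw [Complex.exp_sub, Complex.exp_sub, h, h, div_self (Complex.exp_ne_zero _),
    div_self (Complex.exp_ne_zero _)]

theorem exists_not_hasSec {E : Type*} [NormedAddCommGroup E] [NormedSpace ℝ E]
    (X B A₀ A₁ A₂ K₀ K₁ K₂ KB : Set E) (hB : IsClosed B) (hA₀ : IsClosed A₀) (hA₁ : IsClosed A₁)
    (hA₂ : IsClosed A₂) (hcover : ∀ x ∈ X, x ∈ B ∨ x ∈ A₀ ∨ x ∈ A₁ ∨ x ∈ A₂)
    (hempty : ∀ x, x ∈ B → x ∈ A₀ → x ∈ A₁ → x ∈ A₂ → False)
    (c₀ : Convex ℝ K₀) (c₁ : Convex ℝ K₁) (c₂ : Convex ℝ K₂) (cB : Convex ℝ KB)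
    (s₀ : K₀ ⊆ X ∩ A₀) (s₁ : K₁ ⊆ X ∩ A₁) (s₂ : K₂ ⊆ X ∩ A₂) (sB : KB ⊆ X ∩ B)
    (m a₁ a₂ c : E) (hm : m ∈ K₀ ∧ m ∈ K₁ ∧ m ∈ K₂) (ha₁ : a₁ ∈ K₀ ∧ a₁ ∈ K₁ ∧ a₁ ∈ KB)
    (ha₂ : a₂ ∈ K₀ ∧ a₂ ∈ K₂ ∧ a₂ ∈ KB) (hc : c ∈ K₁ ∧ c ∈ K₂ ∧ c ∈ KB) :
    ∃ F : X → ℂ × ℝ, Continuous F ∧ (∀ y, OnSphere (F y)) ∧ ¬ HasSec F := by
  have n₀ : A₀.Nonempty := ⟨m, (s₀ hm.1).2⟩
  have n₁ : A₁.Nonempty := ⟨m, (s₁ hm.2.1).2⟩
  have n₂ : A₂.Nonempty := ⟨m, (s₂ hm.2.2).2⟩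
  have nB : B.Nonempty := ⟨c, (sB hc.2.2).2⟩
  have z₀ : ∀ x, x ∈ A₀ ↔ infDist x A₀ = 0 := fun x => hA₀.mem_iff_infDist_zero n₀
  have z₁ : ∀ x, x ∈ A₁ ↔ infDist x A₁ = 0 := fun x => hA₁.mem_iff_infDist_zero n₁
  have z₂ : ∀ x, x ∈ A₂ ↔ infDist x A₂ = 0 := fun x => hA₂.mem_iff_infDist_zero n₂
  have zB : ∀ x, x ∈ B ↔ infDist x B = 0 := fun x => hB.mem_iff_infDist_zero nB
  have p₀ : ∀ x, 0 ≤ infDist x A₀ := fun x => infDist_nonneg
  have p₁ : ∀ x, 0 ≤ infDist x A₁ := fun x => infDist_nonneg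
  have p₂ : ∀ x, 0 ≤ infDist x A₂ := fun x => infDist_nonneg
  have pB : ∀ x, 0 ≤ infDist x B := fun x => infDist_nonneg
  let u : E → ℝ := fun x => infDist x A₀ - infDist x A₂
  let v : E → ℝ := fun x => infDist x A₁ - infDist x A₂
  let h : E → ℝ := fun x => infDist x B - min (infDist x A₀) (min (infDist x A₁) (infDist x A₂))
  let r : E → ℝ := fun x => Real.sqrt (u x ^ 2 + v x ^ 2 + h x ^ 2)
  have cu : Continuous u := (continuous_infDist_pt _).sub (continuous_infDist_pt _)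
  have cv : Continuous v := (continuous_infDist_pt _).sub (continuous_infDist_pt _)
  have ch : Continuous h := (continuous_infDist_pt _).sub ((continuous_infDist_pt _).min
    ((continuous_infDist_pt _).min (continuous_infDist_pt _)))
  have cr : Continuous r := by fun_prop
  have hA : ∀ x, x ∈ A₀ ∨ x ∈ A₁ ∨ x ∈ A₂ → h x = infDist x B := by
    intro x hx
    have : min (infDist x A₀) (min (infDist x A₁) (infDist x A₂)) = 0 := by
      apply le_antisymm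
      · rcases hx with hx | hx | hx
        · exact (min_le_left _ _).trans ((z₀ x).1 hx).le
        · exact (min_le_right _ _).trans ((min_le_left _ _).trans ((z₁ x).1 hx).le)
        · exact (min_le_right _ _).trans ((min_le_right _ _).trans ((z₂ x).1 hx).le)
      · exact le_min (p₀ x) (le_min (p₁ x) (p₂ x))
    simp [h, this]
  have hBle : ∀ x ∈ B, h x ≤ 0 := by
    intro x hx
    have := le_min (p₀ x) (le_min (p₁ x) (p₂ x))
    simp only [h, (zB x).1 hx]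
    linarith
  have hpos : ∀ x ∈ X, 0 < u x ^ 2 + v x ^ 2 + h x ^ 2 := by
    intro x hx
    by_contra hcon
    have hu : u x = 0 := by nlinarith [sq_nonneg (u x), sq_nonneg (v x), sq_nonneg (h x)]
    have hv : v x = 0 := by nlinarith [sq_nonneg (u x), sq_nonneg (v x), sq_nonneg (h x)]
    have hh : h x = 0 := by nlinarith [sq_nonneg (u x), sq_nonneg (v x), sq_nonneg (h x)]
    have e0 : infDist x A₀ = infDist x A₂ := sub_eq_zero.1 hu
    have e1 : infDist x A₁ = infDist x A₂ := sub_eq_zero.1 hv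
    have eB : infDist x B = infDist x A₂ := by
      simp only [h, e0, e1, min_self] at hh
      linarith
    have e2 : infDist x A₂ = 0 := by
      rcases hcover x hx with hx | hx | hx | hx
      · rw [← eB]; exact (zB x).1 hx
      · rw [← e0]; exact (z₀ x).1 hx
      · rw [← e1]; exact (z₁ x).1 hx
      · exact (z₂ x).1 hx
    exact hempty x ((zB x).2 (eB.trans e2)) ((z₀ x).2 (e0.trans e2)) ((z₁ x).2 (e1.trans e2))
      ((z₂ x).2 e2)
  have hr : ∀ x ∈ X, 0 < r x := fun x hx => Real.sqrt_pos.2 (hpos x hx)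
  have hr2 : ∀ x ∈ X, r x ^ 2 = u x ^ 2 + v x ^ 2 + h x ^ 2 :=
    fun x hx => Real.sq_sqrt (hpos x hx).le
  let f : X → ℂ := fun x => ((u x / r x : ℝ) : ℂ) + ((v x / r x : ℝ) : ℂ) * Complex.I
  have cf : Continuous f := by
    have c1 : Continuous fun x : X => u x / r x :=
      (cu.comp continuous_subtype_val).div (cr.comp continuous_subtype_val) fun x => (hr x x.2).ne'
    have c2 : Continuous fun x : X => v x / r x :=
      (cv.comp continuous_subtype_val).div (cr.comp continuous_subtype_val) fun x => (hr x x.2).ne'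
    fun_prop
  have fre : ∀ x : X, (f x).re = u x / r x := by intro x; simp [f]
  have fim : ∀ x : X, (f x).im = v x / r x := by intro x; simp [f]
  refine ⟨fun x => (f x, h x / r x), ?_, ?_, ?_⟩
  · exact cf.prodMk ((ch.comp continuous_subtype_val).div (cr.comp continuous_subtype_val)
      fun x => (hr x x.2).ne')
  · intro x
    have h1 := hr x x.2
    have h2 := hr2 x x.2
    simp only [OnSphere, Complex.normSq_apply, fre, fim]
    field_simp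
    linarith
  rintro ⟨ξ, cξ, hξ⟩
  have hξ1 : ∀ x : X, (x : E) ∈ A₀ ∨ (x : E) ∈ A₁ ∨ (x : E) ∈ A₂ → (ξ x).1 ≠ 0 := by
    intro x hx h0
    have h1 := (hξ x).2.1
    simp only [h0, mul_zero] at h1
    have h2 : 0 < 1 + h x / r x := by
      have := div_nonneg ((hA x hx).symm ▸ pB x) (hr x x.2).le
      linarith
    have h3 : (1 + ((h x / r x : ℝ) : ℂ)) ≠ 0 := by exact_mod_cast h2.ne'
    exact (hξ x).1 (Prod.ext h0 ((mul_eq_zero.1 h1.symm).resolve_left h3))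
  have hξ2 : ∀ x : X, (x : E) ∈ B → (ξ x).2 ≠ 0 := by
    intro x hx h0
    have h1 := (hξ x).2.2
    simp only [h0, mul_zero] at h1
    have h2 : 0 < 1 - h x / r x := by
      have := div_nonpos_of_nonpos_of_nonneg (hBle x hx) (hr x x.2).le
      linarith
    have h3 : (1 - ((h x / r x : ℝ) : ℂ)) ≠ 0 := by exact_mod_cast h2.ne'
    exact (hξ x).1 (Prod.ext ((mul_eq_zero.1 h1.symm).resolve_left h3) h0)
  have hξ3 : ∀ x : X, (x : E) ∈ A₀ ∨ (x : E) ∈ A₁ ∨ (x : E) ∈ A₂ → (x : E) ∈ B →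
      f x * (ξ x).1 = (ξ x).2 := by
    intro x hx hx'
    have h1 := (hξ x).2.1
    simpa [hA x hx, (zB x).1 hx'] using h1
  let Λ : Set E := {y | y ∈ KB ∧ (y ∈ K₀ ∨ y ∈ K₁ ∨ y ∈ K₂)}
  have hΛX : ∀ y : Λ, (y : E) ∈ X := fun y => (sB y.2.1).1
  have hI : ∀ t : unitInterval, (t : ℝ) ∈ Icc (0 : ℝ) 1 := fun t => t.2
  have hmA : ∀ z : unitInterval × Λ, AffineMap.lineMap m (z.2 : E) (z.1 : ℝ) ∈ X ∧
      (AffineMap.lineMap m (z.2 : E) (z.1 : ℝ) ∈ A₀ ∨ AffineMap.lineMap m (z.2 : E) (z.1 : ℝ) ∈ A₁ ∨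
        AffineMap.lineMap m (z.2 : E) (z.1 : ℝ) ∈ A₂) := by
    rintro ⟨t, y, -, hy | hy | hy⟩
    · have := s₀ (c₀.lineMap_mem hm.1 hy (hI t))
      exact ⟨this.1, Or.inl this.2⟩
    · have := s₁ (c₁.lineMap_mem hm.2.1 hy (hI t))
      exact ⟨this.1, Or.inr (Or.inl this.2)⟩
    · have := s₂ (c₂.lineMap_mem hm.2.2 hy (hI t))
      exact ⟨this.1, Or.inr (Or.inr this.2)⟩
  have hcB : ∀ z : unitInterval × Λ, AffineMap.lineMap c (z.2 : E) (z.1 : ℝ) ∈ X ∩ B :=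
    fun z => sB (cB.lineMap_mem hc.2.2 z.2.2.1 (hI z.1))
  have clm : ∀ w : E, Continuous fun z : unitInterval × Λ =>
      AffineMap.lineMap w (z.2 : E) (z.1 : ℝ) := by
    intro w
    simp only [AffineMap.lineMap_apply_module]
    fun_prop
  obtain ⟨l₁, cl₁, hl₁⟩ := exists_log (fun z : unitInterval × Λ => (ξ ⟨_, (hmA z).1⟩).1)
    ((cξ.comp ((clm m).subtype_mk _)).fst) (fun z => hξ1 _ (hmA z).2) (ξ ⟨m, (s₀ hm.1).1⟩).1
    (by intro y; simp)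
  obtain ⟨l₂, cl₂, hl₂⟩ := exists_log (fun z : unitInterval × Λ => (ξ ⟨_, (hcB z).1⟩).2)
    ((cξ.comp ((clm c).subtype_mk _)).snd) (fun z => hξ2 _ (hcB z).2) (ξ ⟨c, (sB hc.2.2).1⟩).2
    (by intro y; simp)
  have hΛA : ∀ y : Λ, (y : E) ∈ A₀ ∨ (y : E) ∈ A₁ ∨ (y : E) ∈ A₂ := by
    intro y
    simpa using (hmA (1, y)).2
  have hL : ∀ y : Λ, Complex.exp (l₂ y - l₁ y) = f ⟨y, hΛX y⟩ := by
    intro y
    have h1 : Complex.exp (l₁ y) = (ξ ⟨y, hΛX y⟩).1 := by simpa using hl₁ y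
    have h2 : Complex.exp (l₂ y) = (ξ ⟨y, hΛX y⟩).2 := by simpa using hl₂ y
    rw [Complex.exp_sub, h1, h2, ← hξ3 ⟨y, hΛX y⟩ (hΛA y) (sB y.2.1).2,
      mul_div_assoc, div_self (hξ1 ⟨y, hΛX y⟩ (hΛA y)), mul_one]
  -- moving along a segment on which `s * f` avoids the negative axis
  have seg : ∀ (K : Set E) (s : ℂ) (w : ℂ), Complex.exp w = s → Convex ℝ K →
      (∀ y ∈ K, y ∈ K₀ ∨ y ∈ K₁ ∨ y ∈ K₂) →
      (∀ y : Λ, (y : E) ∈ K → s * f ⟨y, hΛX y⟩ ∈ Complex.slitPlane) →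
      ∀ y y' : Λ, (y : E) ∈ K → (y' : E) ∈ K →
      (l₂ y' - l₁ y').im - (s * f ⟨y', hΛX y'⟩).arg = (l₂ y - l₁ y).im - (s * f ⟨y, hΛX y⟩).arg := by
    intro K s w hw cK hK hsl y y' hy hy'
    let p : unitInterval → Λ := fun t => ⟨AffineMap.lineMap (y : E) (y' : E) (t : ℝ),
      cB.lineMap_mem y.2.1 y'.2.1 (hI t), hK _ (cK.lineMap_mem hy hy' (hI t))⟩
    have cp : Continuous p := by
      apply Continuous.subtype_mk
      simp only [AffineMap.lineMap_apply_module]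
      fun_prop
    have hpK : ∀ t, (p t : E) ∈ K := fun t => cK.lineMap_mem hy hy' (hI t)
    have cf' : Continuous fun t => s * f ⟨p t, hΛX (p t)⟩ :=
      continuous_const.mul (cf.comp ((continuous_subtype_val.comp cp).subtype_mk _))
    have := log_diff (fun t => w + (l₂ (p t) - l₁ (p t)))
      (fun t => Complex.log (s * f ⟨p t, hΛX (p t)⟩)) (by fun_prop)
      (cf'.clog fun t => hsl _ (hpK t)) (by
        intro t
        rw [Complex.exp_add, hw, hL, Complex.exp_log (Complex.slitPlane_ne_zero (hsl _ (hpK t)))])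
    have p0 : p 0 = y := Subtype.ext (by simp [p])
    have p1 : p 1 = y' := Subtype.ext (by simp [p])
    simp only [p0, p1] at this
    have := congrArg Complex.im this
    simp only [Complex.sub_im, Complex.add_im, Complex.log_im] at this ⊢
    linarith
  let y₁ : Λ := ⟨a₁, ha₁.2.2, Or.inl ha₁.1⟩
  let y₂ : Λ := ⟨a₂, ha₂.2.2, Or.inl ha₂.1⟩
  let y₃ : Λ := ⟨c, hc.2.2, Or.inr (Or.inl hc.1)⟩
  have nall : ∀ y : Λ, ¬ (infDist (y : E) A₀ = 0 ∧ infDist (y : E) A₁ = 0 ∧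
      infDist (y : E) A₂ = 0) := by
    rintro y ⟨h0, h1, h2⟩
    exact hempty y (sB y.2.1).2 ((z₀ _).2 h0) ((z₁ _).2 h1) ((z₂ _).2 h2)
  have e1 := seg K₁ 1 0 Complex.exp_zero c₁ (fun y hy => Or.inr (Or.inl hy)) (by
    intro y hy
    have h1 := (z₁ _).1 (s₁ hy).2
    have h2 := nall y
    have h3 := hr y (hΛX y)
    rw [one_mul, Complex.mem_slitPlane_iff, fre, fim]
    by_cases h4 : infDist (y : E) A₂ = 0
    · left
      apply div_pos _ h3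
      have := lt_of_le_of_ne (p₀ y) fun e => h2 ⟨e.symm, h1, h4⟩
      simp only [u, h4]; linarith
    · right
      apply div_ne_zero _ h3.ne'
      simp only [v, h1]
      simpa using h4) y₁ y₃ ha₁.2.1 hc.1
  have e2 := seg K₂ 1 0 Complex.exp_zero c₂ (fun y hy => Or.inr (Or.inr hy)) (by
    intro y hy
    have h1 := (z₂ _).1 (s₂ hy).2
    have h2 := nall y
    have h3 := hr y (hΛX y)
    rw [one_mul, Complex.mem_slitPlane_iff, fre, fim]
    by_cases h4 : infDist (y : E) A₁ = 0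
    · left
      apply div_pos _ h3
      have := lt_of_le_of_ne (p₀ y) fun e => h2 ⟨e.symm, h4, h1⟩
      simp only [u, h1]; linarith
    · right
      apply div_ne_zero _ h3.ne'
      simp only [v, h1]
      simpa using h4) y₂ y₃ ha₂.2.1 hc.2.1
  have e0 := seg K₀ (-1) (Real.pi * Complex.I) Complex.exp_pi_mul_I c₀ (fun y hy => Or.inl hy) (by
    intro y hy
    have h1 := (z₀ _).1 (s₀ hy).2
    have h2 := nall y
    have h3 := hr y (hΛX y)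
    rw [neg_one_mul, Complex.mem_slitPlane_iff, Complex.neg_re, Complex.neg_im, fre, fim]
    by_cases h4 : infDist (y : E) A₂ = 0
    · right
      rw [neg_ne_zero]
      apply div_ne_zero _ h3.ne'
      simp only [v, h4, sub_zero]
      exact fun e => h2 ⟨h1, e, h4⟩
    · left
      rw [← neg_div]
      apply div_pos _ h3
      have := lt_of_le_of_ne (p₂ y) fun e => h4 e.symm
      simp only [u, h1]; linarith) y₁ y₂ ha₁.1 ha₂.1
  have i1 : (f ⟨y₁, hΛX y₁⟩).im < 0 := by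
    rw [fim]
    apply div_neg_of_neg_of_pos _ (hr _ (hΛX y₁))
    have h0 := (z₀ _).1 (s₀ ha₁.1).2
    have h1 := (z₁ _).1 (s₁ ha₁.2.1).2
    have := lt_of_le_of_ne (p₂ a₁) fun e => nall y₁ ⟨h0, h1, e.symm⟩
    simp only [v, y₁, h1]; linarith
  have i2 : 0 < (f ⟨y₂, hΛX y₂⟩).im := by
    rw [fim]
    apply div_pos _ (hr _ (hΛX y₂))
    have h0 := (z₀ _).1 (s₀ ha₂.1).2
    have h1 := (z₂ _).1 (s₂ ha₂.2.1).2
    have := lt_of_le_of_ne (p₁ a₂) fun e => nall y₂ ⟨h0, e.symm, h1⟩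
    simp only [v, y₂, h1]; linarith
  rw [neg_one_mul, neg_one_mul, Complex.arg_neg_eq_arg_sub_pi_of_im_pos i2,
    Complex.arg_neg_eq_arg_add_pi_of_im_neg i1] at e0
  rw [one_mul, one_mul] at e1 e2
  have := Real.pi_pos
  linarith

end Pool.Agent.MP_937632_gt

end MrgPart1

-- ======== part 2: formerly Pool.Agent.MP_937632_gt.Comb
section MrgPart2

/-!
A configuration of sample points whose shadow encloses a cavity.
-/

set_option autoImplicit false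

open Set Metric

namespace Pool.Agent.MP_937632_gt

theorem convex_lex {E : Type*} [AddCommGroup E] [Module ℝ E] (f : E →ₗ[ℝ] ℝ) (c : ℝ) {C : Set E}
    (hC : Convex ℝ C) : Convex ℝ {x | c < f x ∨ (f x = c ∧ x ∈ C)} := by
  intro x hx y hy a b ha hb hab
  have e : f (a • x + b • y) = a * f x + b * f y := by simp
  have hc : c = a * c + b * c := by rw [← add_mul, hab, one_mul]
  rcases hx with hx | hx <;> rcases hy with hy | hy
  · left
    rw [e]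
    rcases ha.eq_or_lt with rfl | ha'
    · rw [zero_add] at hab; rw [hab]; linarith
    · nlinarith [mul_le_mul_of_nonneg_left hy.le hb, mul_lt_mul_of_pos_left hx ha']
  · rcases ha.eq_or_lt with rfl | ha'
    · rw [zero_add] at hab
      right
      simpa [hab] using hy
    · left
      rw [e, hy.1]
      nlinarith [mul_lt_mul_of_pos_left hx ha']
  · rcases hb.eq_or_lt with rfl | hb'
    · rw [add_zero] at hab
      right
      simpa [hab] using hx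
    · left
      rw [e, hx.1]
      nlinarith [mul_lt_mul_of_pos_left hy hb']
  · right
    exact ⟨by rw [e, hx.1, hy.1, ← hc], hC hx.2 hy.2 ha hb hab⟩

theorem diam_lt_of_finite {E : Type*} [PseudoMetricSpace E] {σ : Set E} (hf : σ.Finite)
    (hn : σ.Nonempty) {β : ℝ} (h : ∀ x ∈ σ, ∀ y ∈ σ, dist x y < β) : diam σ < β := by
  obtain ⟨z, hz, hmax⟩ := Set.exists_max_image (σ ×ˢ σ) (fun z => dist z.1 z.2) (hf.prod hf)
    (hn.prod hn)
  exact (diam_le_of_forall_dist_le dist_nonneg fun x hx y hy => hmax (x, y) ⟨hx, hy⟩).trans_lt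
    (h _ hz.1 _ hz.2)

theorem shadow_not_equiv {E : Type*} [NormedAddCommGroup E] [NormedSpace ℝ E]
    (γ : ℝ → E) (hγ : Continuous γ) (hper : Function.Periodic γ 1) (hinj : InjOn γ (Ico 0 1))
    (β : ℝ) (hβ : 0 < β) (S Base : Set E) (hfin : S.Finite) (T Y Z : E →ₗ[ℝ] ℝ) (t₀ y₀ : ℝ)
    (p₁ p₂ q a₁ a₂ bp bm m c : E)
    (hS : ∀ v, v ∈ S ↔ v ∈ Base ∨ v = p₁ ∨ v = p₂ ∨ v = q ∨ v = a₁ ∨ v = a₂ ∨ v = bp ∨ v = bm)
    (hm : m ∈ Base) (hZ : ∀ v ∈ Base, Z v = 0)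
    (Zp₁ : 0 < Z p₁) (Zp₂ : 0 < Z p₂) (Za₁ : Z a₁ = 0) (Za₂ : Z a₂ = 0) (Zbp : Z bp = 0)
    (Zbm : Z bm = 0) (Ya₁ : y₀ < Y a₁) (Ybp : y₀ < Y bp) (Ya₂ : Y a₂ < y₀) (Ybm : Y bm < y₀)
    (Bp₁ : ∀ v ∈ Base, dist v p₁ < β → Y v = y₀ ∧ T v < t₀)
    (Bp₂ : ∀ v ∈ Base, dist v p₂ < β → Y v = y₀ ∧ T v < t₀)
    (Bq : ∀ v ∈ Base, dist v q < β → t₀ ≤ T v)
    (Tp₁ : T p₁ < t₀) (Tp₂ : T p₂ < t₀) (Tq : t₀ ≤ T q) (Ta₁ : t₀ ≤ T a₁) (Ta₂ : t₀ ≤ T a₂)
    (Tbp : t₀ ≤ T bp) (Tbm : t₀ ≤ T bm)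
    (n₁ : ¬ dist a₁ p₂ < β) (n₂ : ¬ dist a₂ p₁ < β) (n₃ : ¬ dist bp p₂ < β)
    (n₄ : ¬ dist bm p₁ < β) (n₅ : ¬ dist q p₁ < β) (n₆ : ¬ dist q p₂ < β)
    (d₁ : dist a₁ a₂ < β) (d₂ : dist a₁ m < β) (d₃ : dist a₂ m < β) (d₄ : dist a₁ p₁ < β)
    (d₅ : dist m p₁ < β) (d₆ : dist a₂ p₂ < β) (d₇ : dist m p₂ < β) (d₈ : dist q a₁ < β)
    (d₉ : dist q a₂ < β) (d₁₀ : dist q bp < β) (d₁₁ : dist q bm < β) (d₁₂ : dist a₁ bp < β)
    (d₁₃ : dist a₁ bm < β) (d₁₄ : dist a₂ bp < β) (d₁₅ : dist a₂ bm < β) (d₁₆ : dist bp bm < β)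
    (c₁ : c ∈ convexHull ℝ {p₁, a₁, m}) (c₂ : c ∈ convexHull ℝ {p₂, a₂, m})
    (cB : c ∈ convexHull ℝ {q, a₁, a₂, bp, bm}) :
    IsEmpty (ContinuousMap.HomotopyEquiv (shadow β S) (range γ)) := by
  let Cl : Set (Set E) := {σ | σ.Finite ∧ σ.Nonempty ∧ σ ⊆ S ∧ diam σ < β}
  have hCl : Cl.Finite := hfin.finite_subsets.subset fun σ hσ => hσ.2.2.1
  have adj : ∀ σ ∈ Cl, ∀ u ∈ σ, ∀ v ∈ σ, dist u v < β := fun σ hσ u hu v hv =>
    (dist_le_diam_of_mem hσ.1.isBounded hu hv).trans_lt hσ.2.2.2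
  let U : (Set E → Prop) → Set E := fun P => ⋃ σ ∈ {σ ∈ Cl | P σ}, convexHull ℝ σ
  have hU : ∀ P, IsCompact (U P) := fun P =>
    (hCl.subset fun σ hσ => hσ.1).isCompact_biUnion fun σ hσ => hσ.1.1.isCompact_convexHull ℝ
  have memU : ∀ P x, x ∈ U P ↔ ∃ σ ∈ Cl, P σ ∧ x ∈ convexHull ℝ σ := by
    intro P x
    simp only [U, mem_iUnion, mem_ofPred_eq, exists_prop, and_assoc]
  have memX : ∀ x, x ∈ shadow β S ↔ ∃ σ ∈ Cl, x ∈ convexHull ℝ σ := by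
    intro x
    simp only [shadow, Cl, mem_iUnion, mem_ofPred_eq, exists_prop]
  have hX : IsCompact (shadow β S) :=
    hCl.isCompact_biUnion fun σ hσ => hσ.1.isCompact_convexHull ℝ
  have sub : ∀ (P : Set E → Prop) σ, σ ∈ Cl → P σ → convexHull ℝ σ ⊆ shadow β S ∩ U P :=
    fun P σ hσ hP x hx => ⟨(memX x).2 ⟨σ, hσ, hx⟩, (memU P x).2 ⟨σ, hσ, hP, hx⟩⟩
  have Sm : m ∈ S := (hS _).2 (Or.inl hm)
  have Sp₁ : p₁ ∈ S := (hS _).2 (by simp)
  have Sp₂ : p₂ ∈ S := (hS _).2 (by simp)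
  have Sq : q ∈ S := (hS _).2 (by simp)
  have Sa₁ : a₁ ∈ S := (hS _).2 (by simp)
  have Sa₂ : a₂ ∈ S := (hS _).2 (by simp)
  have Sbp : bp ∈ S := (hS _).2 (by simp)
  have Sbm : bm ∈ S := (hS _).2 (by simp)
  have tri : ∀ u ∈ S, ∀ v ∈ S, ∀ w ∈ S, dist u v < β → dist u w < β → dist v w < β →
      ({u, v, w} : Set E) ∈ Cl := by
    intro u hu v hv w hw h1 h2 h3
    refine ⟨toFinite _, insert_nonempty _ _, ?_, diam_lt_of_finite (toFinite _)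
      (insert_nonempty _ _) ?_⟩
    · rintro x (rfl | rfl | rfl) <;> assumption
    · rintro x (rfl | rfl | rfl) y (rfl | rfl | rfl) <;>
        first | (rw [dist_self]; exact hβ) | assumption | (rw [dist_comm]; assumption)
  have σ₀ := tri a₁ Sa₁ a₂ Sa₂ m Sm d₁ d₂ d₃
  have σ₁ := tri p₁ Sp₁ a₁ Sa₁ m Sm (dist_comm a₁ p₁ ▸ d₄) (dist_comm m p₁ ▸ d₅) d₂
  have σ₂ := tri p₂ Sp₂ a₂ Sa₂ m Sm (dist_comm a₂ p₂ ▸ d₆) (dist_comm m p₂ ▸ d₇) d₃
  have σB : ({q, a₁, a₂, bp, bm} : Set E) ∈ Cl := by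
    refine ⟨toFinite _, insert_nonempty _ _, ?_, diam_lt_of_finite (toFinite _)
      (insert_nonempty _ _) ?_⟩
    · rintro x (rfl | rfl | rfl | rfl | rfl) <;> assumption
    · rintro x (rfl | rfl | rfl | rfl | rfl) y (rfl | rfl | rfl | rfl | rfl) <;>
        first | (rw [dist_self]; exact hβ) | assumption | (rw [dist_comm]; assumption)
  have hv : ∀ (σ : Set E) {x}, x ∈ σ → x ∈ convexHull ℝ σ := fun σ x hx => subset_convexHull ℝ σ hx
  obtain ⟨F, hF, hs, hno⟩ := exists_not_hasSec (shadow β S) (U fun σ => q ∈ σ)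
    (U fun σ => q ∉ σ ∧ (p₁ ∈ σ ↔ p₂ ∈ σ)) (U fun σ => p₁ ∈ σ ∧ p₂ ∉ σ)
    (U fun σ => p₂ ∈ σ ∧ p₁ ∉ σ) (convexHull ℝ {a₁, a₂, m}) (convexHull ℝ {p₁, a₁, m})
    (convexHull ℝ {p₂, a₂, m}) (convexHull ℝ {q, a₁, a₂, bp, bm})
    (hU _).isClosed (hU _).isClosed (hU _).isClosed (hU _).isClosed
    (by
      intro x hx
      obtain ⟨σ, hσ, hx⟩ := (memX x).1 hx
      simp only [memU]
      by_cases h1 : q ∈ σ
      · exact Or.inl ⟨σ, hσ, h1, hx⟩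
      by_cases h2 : p₁ ∈ σ ↔ p₂ ∈ σ
      · exact Or.inr (Or.inl ⟨σ, hσ, ⟨h1, h2⟩, hx⟩)
      by_cases h3 : p₁ ∈ σ
      · exact Or.inr (Or.inr (Or.inl ⟨σ, hσ, ⟨h3, by tauto⟩, hx⟩))
      · exact Or.inr (Or.inr (Or.inr ⟨σ, hσ, ⟨by tauto, h3⟩, hx⟩)))
    (by
      intro x hB h₀ h₁ h₂
      obtain ⟨σ, hσ, hq, hx⟩ := (memU _ x).1 hB
      have hxT : t₀ ≤ T x := by
        refine convexHull_min (t := {x | t₀ ≤ T x}) ?_ (convex_halfSpace_ge T.isLinear t₀) hx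
        intro v hv
        have hd := adj σ hσ v hv q hq
        rcases (hS v).1 (hσ.2.2.1 hv) with h | rfl | rfl | rfl | rfl | rfl | rfl | rfl
        · exact Bq v h hd
        · exact absurd (dist_comm v q ▸ hd) n₅
        · exact absurd (dist_comm v q ▸ hd) n₆
        all_goals assumption
      obtain ⟨σ, hσ, ⟨hq, hpp⟩, hx⟩ := (memU _ x).1 h₀
      have hxZ : Z x = 0 := by
        by_cases hp : p₁ ∈ σ
        · exfalso
          have : T x < t₀ := by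
            refine convexHull_min (t := {x | T x < t₀}) ?_ (convex_halfSpace_lt T.isLinear t₀) hx
            intro v hv
            have hd := adj σ hσ v hv p₁ hp
            have hd' := adj σ hσ v hv p₂ (hpp.1 hp)
            rcases (hS v).1 (hσ.2.2.1 hv) with h | rfl | rfl | rfl | rfl | rfl | rfl | rfl
            · exact (Bp₁ v h hd).2
            · exact Tp₁
            · exact Tp₂
            · exact absurd hv hq
            · exact absurd hd' n₁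
            · exact absurd hd n₂
            · exact absurd hd' n₃
            · exact absurd hd n₄
          linarith
        · refine convexHull_min (t := {x | Z x = 0}) ?_ (convex_hyperplane Z.isLinear 0) hx
          intro v hv
          rcases (hS v).1 (hσ.2.2.1 hv) with h | rfl | rfl | rfl | rfl | rfl | rfl | rfl
          · exact hZ v h
          · exact absurd hv hp
          · exact absurd (hpp.2 hv) hp
          · exact absurd hv hq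
          all_goals assumption
      obtain ⟨σ, hσ, ⟨hp, hp'⟩, hx⟩ := (memU _ x).1 h₁
      have hx1 := convexHull_min (t := _) (s := σ) (by
        intro v hv
        have hd := adj σ hσ v hv p₁ hp
        rcases (hS v).1 (hσ.2.2.1 hv) with h | rfl | rfl | rfl | rfl | rfl | rfl | rfl
        · exact Or.inr ⟨hZ v h, Or.inr (Bp₁ v h hd)⟩
        · exact Or.inl Zp₁
        · exact absurd hv hp'
        · exact absurd hd n₅
        · exact Or.inr ⟨Za₁, Or.inl Ya₁⟩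
        · exact absurd hd n₂
        · exact Or.inr ⟨Zbp, Or.inl Ybp⟩
        · exact absurd hd n₄)
        (convex_lex Z 0 (convex_lex Y y₀ (convex_halfSpace_lt T.isLinear t₀))) hx
      obtain ⟨σ, hσ, ⟨hp, hp'⟩, hx⟩ := (memU _ x).1 h₂
      have hx2 := convexHull_min (t := _) (s := σ) (by
        intro v hv
        have hd := adj σ hσ v hv p₂ hp
        rcases (hS v).1 (hσ.2.2.1 hv) with h | rfl | rfl | rfl | rfl | rfl | rfl | rfl
        · exact Or.inr ⟨hZ v h, Or.inr ⟨by simp [(Bp₂ v h hd).1], (Bp₂ v h hd).2⟩⟩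
        · exact absurd hv hp'
        · exact Or.inl Zp₂
        · exact absurd hd n₆
        · exact absurd hd n₁
        · exact Or.inr ⟨Za₂, Or.inl (by simpa using Ya₂)⟩
        · exact absurd hd n₃
        · exact Or.inr ⟨Zbm, Or.inl (by simpa using Ybm)⟩)
        (convex_lex Z 0 (convex_lex (-Y) (-y₀) (convex_halfSpace_lt T.isLinear t₀))) hx
      simp only [mem_ofPred_eq, hxZ, lt_self_iff_false, true_and, false_or, LinearMap.neg_apply,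
        neg_lt_neg_iff, neg_inj] at hx1 hx2
      rcases hx1 with hx1 | hx1
      · rcases hx2 with hx2 | hx2
        · linarith
        · linarith [hx2.2]
      · linarith [hx1.2])
    (convex_convexHull ℝ _) (convex_convexHull ℝ _) (convex_convexHull ℝ _) (convex_convexHull ℝ _)
    (sub _ _ σ₀ ⟨fun h => by
        have h1 := Bq m hm (adj _ σ₀ m (by simp) q h)
        have h2 := (Bp₁ m hm d₅).2
        linarith,
      iff_of_false (fun h => n₂ (adj _ σ₀ a₂ (by simp) p₁ h))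
        (fun h => n₁ (adj _ σ₀ a₁ (by simp) p₂ h))⟩)
    (sub _ _ σ₁ ⟨by simp, fun h => n₁ (adj _ σ₁ a₁ (by simp) p₂ h)⟩)
    (sub _ _ σ₂ ⟨by simp, fun h => n₂ (adj _ σ₂ a₂ (by simp) p₁ h)⟩)
    (sub _ _ σB (by simp))
    m a₁ a₂ c ⟨hv _ (by simp), hv _ (by simp), hv _ (by simp)⟩
    ⟨hv _ (by simp), hv _ (by simp), hv _ (by simp)⟩
    ⟨hv _ (by simp), hv _ (by simp), hv _ (by simp)⟩ ⟨c₁, c₂, cB⟩
  have : CompactSpace (shadow β S) := isCompact_iff_compactSpace.1 hX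
  exact ⟨fun e => hno (hasSec_of_equiv γ hγ hper hinj e F hF hs)⟩

end Pool.Agent.MP_937632_gt

end MrgPart2

-- ======== part 3: formerly Pool.Agent.MP_937632_gt.Curve
section MrgPart3

/-!
A smooth simple closed plane curve with a straight piece.
-/

set_option autoImplicit false

open Set Real
open scoped InnerProductSpace ContDiff

namespace Pool.Agent.MP_937632_gt

/-- Three orthonormal vectors. -/
structure Frame (E : Type*) [NormedAddCommGroup E] [InnerProductSpace ℝ E] where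
  e₀ : E
  e₁ : E
  e₂ : E
  n₀ : ⟪e₀, e₀⟫_ℝ = 1
  n₁ : ⟪e₁, e₁⟫_ℝ = 1
  n₂ : ⟪e₂, e₂⟫_ℝ = 1
  o₀₁ : ⟪e₀, e₁⟫_ℝ = 0
  o₀₂ : ⟪e₀, e₂⟫_ℝ = 0
  o₁₂ : ⟪e₁, e₂⟫_ℝ = 0

namespace Frame

variable {E : Type*} [NormedAddCommGroup E] [InnerProductSpace ℝ E] (φ : Frame E)

/-- The point with coordinates `(1 + y, t, z)`. -/
def P (t y z : ℝ) : E := (1 + y) • φ.e₀ + t • φ.e₁ + z • φ.e₂

theorem o₁₀ : ⟪φ.e₁, φ.e₀⟫_ℝ = 0 := by rw [real_inner_comm]; exact φ.o₀₁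
theorem o₂₀ : ⟪φ.e₂, φ.e₀⟫_ℝ = 0 := by rw [real_inner_comm]; exact φ.o₀₂
theorem o₂₁ : ⟪φ.e₂, φ.e₁⟫_ℝ = 0 := by rw [real_inner_comm]; exact φ.o₁₂

theorem inner₀ (t y z : ℝ) : ⟪φ.e₀, φ.P t y z⟫_ℝ = 1 + y := by
  simp only [P, inner_add_right, inner_smul_right, φ.n₀, φ.o₀₁, φ.o₀₂]; ring
theorem inner₁ (t y z : ℝ) : ⟪φ.e₁, φ.P t y z⟫_ℝ = t := by
  simp only [P, inner_add_right, inner_smul_right, φ.n₁, φ.o₁₀, φ.o₁₂]; ring
theorem inner₂ (t y z : ℝ) : ⟪φ.e₂, φ.P t y z⟫_ℝ = z := by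
  simp only [P, inner_add_right, inner_smul_right, φ.n₂, φ.o₂₀, φ.o₂₁]; ring

theorem dist_sq (t y z t' y' z' : ℝ) :
    dist (φ.P t y z) (φ.P t' y' z') ^ 2 = (t - t') ^ 2 + (y - y') ^ 2 + (z - z') ^ 2 := by
  have : φ.P t y z - φ.P t' y' z' = (y - y') • φ.e₀ + (t - t') • φ.e₁ + (z - z') • φ.e₂ := by
    simp only [P]; module
  rw [dist_eq_norm, ← real_inner_self_eq_norm_sq, this]
  simp only [inner_add_left, inner_add_right, inner_smul_left, inner_smul_right, φ.n₀, φ.n₁, φ.n₂,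
    φ.o₀₁, φ.o₀₂, φ.o₁₂, φ.o₁₀, φ.o₂₀, φ.o₂₁, conj_trivial]
  ring

end Frame

/-- The reciprocal of the polar radius, as a function of the cosine of the angle. -/
noncomputable def gfun (u : ℝ) : ℝ := 1 - smoothTransition (4 * u - 1) * (1 - u)

theorem gfun_of_half_le {u : ℝ} (h : 1 / 2 ≤ u) : gfun u = u := by
  rw [gfun, smoothTransition.one_of_one_le (by linarith)]; ring

theorem gfun_pos {u : ℝ} (h : u ≤ 1) : 0 < gfun u := by
  by_cases h1 : u ≤ 1 / 4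
  · rw [gfun, smoothTransition.zero_of_nonpos (by linarith)]; norm_num
  · have := smoothTransition.le_one (4 * u - 1)
    unfold gfun
    nlinarith

theorem gfun_le_one {u : ℝ} (h : u ≤ 1) : gfun u ≤ 1 := by
  have := smoothTransition.nonneg (4 * u - 1)
  unfold gfun
  nlinarith

theorem contDiff_gfun : ContDiff ℝ ∞ gfun := by
  unfold gfun
  exact contDiff_const.sub ((smoothTransition.contDiff.comp (by fun_prop)).mul (by fun_prop))

/-- The polar radius. -/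
noncomputable def rad (s : ℝ) : ℝ := (gfun (cos (2 * π * s)))⁻¹

theorem rad_pos (s : ℝ) : 0 < rad s := inv_pos.2 (gfun_pos (cos_le_one _))

theorem one_le_rad (s : ℝ) : 1 ≤ rad s :=
  (one_le_inv₀ (gfun_pos (cos_le_one _))).2 (gfun_le_one (cos_le_one _))

theorem contDiff_rad : ContDiff ℝ ∞ rad :=
  (contDiff_gfun.comp (by fun_prop)).inv fun s => (gfun_pos (cos_le_one _)).ne'

namespace Frame

variable {E : Type*} [NormedAddCommGroup E] [InnerProductSpace ℝ E] (φ : Frame E)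

/-- The curve. -/
noncomputable def curve (s : ℝ) : E :=
  (rad s * cos (2 * π * s)) • φ.e₀ + (rad s * sin (2 * π * s)) • φ.e₁

theorem curve_eq (s : ℝ) :
    φ.curve s = φ.P (rad s * sin (2 * π * s)) (rad s * cos (2 * π * s) - 1) 0 := by
  simp [curve, P]

theorem contDiff_curve : ContDiff ℝ ∞ φ.curve := by
  have := contDiff_rad
  unfold curve
  fun_prop

theorem periodic_curve : Function.Periodic φ.curve 1 := by
  intro s
  have e : 2 * π * (s + 1) = 2 * π * s + 2 * π := by ring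
  simp only [curve, rad, e, cos_add_two_pi, sin_add_two_pi]

theorem injOn_curve : InjOn φ.curve (Ico 0 1) := by
  intro s hs s' hs' h
  have h0 := congrArg (fun v => ⟪φ.e₀, v⟫_ℝ) h
  have h1 := congrArg (fun v => ⟪φ.e₁, v⟫_ℝ) h
  simp only [curve_eq, inner₀, inner₁] at h0 h1
  have hc := cos_sq_add_sin_sq (2 * π * s)
  have hc' := cos_sq_add_sin_sq (2 * π * s')
  have hr := rad_pos s
  have hr' := rad_pos s'
  have h0' : rad s * cos (2 * π * s) = rad s' * cos (2 * π * s') := by linarith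
  have hrr : rad s = rad s' := by
    have : rad s ^ 2 = rad s' ^ 2 := by
      linear_combination (-rad s ^ 2) * hc + rad s' ^ 2 * hc' +
        (rad s * cos (2 * π * s) + rad s' * cos (2 * π * s')) * h0' +
        (rad s * sin (2 * π * s) + rad s' * sin (2 * π * s')) * h1
    exact (sq_eq_sq₀ hr.le hr'.le).1 this
  rw [hrr] at h0' h1
  have e1 := mul_left_cancel₀ hr'.ne' h0'
  have e2 := mul_left_cancel₀ hr'.ne' h1
  have e3 : cos (2 * π * s - 2 * π * s') = 1 := by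
    rw [cos_sub, e1, e2]; linear_combination hc'
  obtain ⟨n, hn⟩ := (cos_eq_one_iff _).1 e3
  have e4 : (n : ℝ) = s - s' := by
    apply mul_right_cancel₀ (show 2 * π ≠ 0 by positivity)
    linear_combination hn
  have e5 : |(n : ℝ)| < 1 := by
    rw [e4, abs_lt]
    constructor <;> linarith [hs.1, hs.2, hs'.1, hs'.2]
  have e6 : n = 0 := by
    have : |n| < 1 := by exact_mod_cast e5
    exact Int.abs_lt_one_iff.1 this
  rw [e6] at e4
  simp only [Int.cast_zero] at e4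
  linarith

theorem deriv_curve_ne_zero (s : ℝ) : deriv φ.curve s ≠ 0 := by
  have hr : HasDerivAt rad (deriv rad s) s :=
    (contDiff_rad.differentiable (by simp) s).hasDerivAt
  have hl : HasDerivAt (fun s : ℝ => 2 * π * s) (2 * π) s := by
    simpa using (hasDerivAt_id s).const_mul (2 * π)
  have hd := ((hr.mul hl.cos).smul_const φ.e₀).add ((hr.mul hl.sin).smul_const φ.e₁)
  have hd' : HasDerivAt φ.curve _ s := hd
  rw [hd'.deriv]
  intro h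
  have h0 := congrArg (fun v => ⟪φ.e₀, v⟫_ℝ) h
  have h1 := congrArg (fun v => ⟪φ.e₁, v⟫_ℝ) h
  simp only [inner_add_right, inner_smul_right, φ.n₀, φ.n₁, φ.o₀₁, φ.o₁₀, inner_zero_right] at h0 h1
  have hc := cos_sq_add_sin_sq (2 * π * s)
  have : rad s * (2 * π) = 0 := by
    linear_combination (-sin (2 * π * s)) * h0 + cos (2 * π * s) * h1 - rad s * (2 * π) * hc
  have h2 : 0 < rad s * (2 * π) := mul_pos (rad_pos s) (by positivity)
  linarith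

theorem line_mem {t : ℝ} (ht : |t| ≤ 1) : φ.P t 0 0 ∈ range φ.curve := by
  refine ⟨arctan t / (2 * π), ?_⟩
  have e : 2 * π * (arctan t / (2 * π)) = arctan t := by field_simp
  have hpos := cos_arctan_pos t
  have hhalf : 1 / 2 ≤ cos (arctan t) := by
    have h1 : cos (arctan t) ^ 2 = 1 / (1 + t ^ 2) := cos_sq_arctan t
    have h2 : t ^ 2 ≤ 1 := by rw [← sq_abs]; nlinarith [abs_nonneg t]
    have h3 : 1 / 4 ≤ 1 / (1 + t ^ 2) := by
      apply one_div_le_one_div_of_le <;> nlinarith [sq_nonneg t]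
    nlinarith
  rw [curve_eq, rad, e, gfun_of_half_le hhalf, inv_mul_cancel₀ hpos.ne', sub_self,
    ← div_eq_inv_mul, ← tan_eq_sin_div_cos, tan_arctan]

theorem curve_cases {v : E} (hv : v ∈ range φ.curve) :
    (∃ t, v = φ.P t 0 0) ∨ (⟪φ.e₂, v⟫_ℝ = 0 ∧ 1 ≤ dist v (φ.P 0 0 0)) := by
  obtain ⟨s, rfl⟩ := hv
  by_cases h : 1 / 2 ≤ cos (2 * π * s)
  · left
    refine ⟨rad s * sin (2 * π * s), ?_⟩
    rw [curve_eq, rad, gfun_of_half_le h, inv_mul_cancel₀ (by linarith), sub_self]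
  · right
    rw [curve_eq]
    refine ⟨φ.inner₂ _ _ _, ?_⟩
    have h1 := φ.dist_sq (rad s * sin (2 * π * s)) (rad s * cos (2 * π * s) - 1) 0 0 0 0
    have hc := cos_sq_add_sin_sq (2 * π * s)
    have hr := one_le_rad s
    have h2 : (rad s * sin (2 * π * s) - 0) ^ 2 + (rad s * cos (2 * π * s) - 1 - 0) ^ 2 +
        (0 - 0 : ℝ) ^ 2 = rad s ^ 2 - 2 * rad s * cos (2 * π * s) + 1 := by
      linear_combination rad s ^ 2 * hc
    rw [h2] at h1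
    have h3 : 1 ≤ rad s ^ 2 - 2 * rad s * cos (2 * π * s) + 1 := by nlinarith
    nlinarith [dist_nonneg (x := φ.P (rad s * sin (2 * π * s)) (rad s * cos (2 * π * s) - 1) 0)
      (y := φ.P 0 0 0)]

end Frame

end Pool.Agent.MP_937632_gt

end MrgPart3

-- ======== part 4: formerly Pool.Agent.MP_937632_gt.Num
section MrgPart4

/-!
Numerical inequalities for the explicit sample.
-/

set_option autoImplicit false

namespace Pool.Agent.MP_937632_gt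

theorem sq3_lt {x y z a b c : ℝ} (h1 : -a ≤ x) (h2 : x ≤ a) (h3 : -b ≤ y) (h4 : y ≤ b)
    (h5 : -c ≤ z) (h6 : z ≤ c) (h : a ^ 2 + b ^ 2 + c ^ 2 < 1) : x ^ 2 + y ^ 2 + z ^ 2 < 1 := by
  have := sq_le_sq' h1 h2
  have := sq_le_sq' h3 h4
  have := sq_le_sq' h5 h6
  linarith

theorem num_n1 {e L : ℝ} (he : 0 < e) (hL : L ^ 2 = 1 - 8 * e ^ 2) (lo : 9 / 10 ≤ L) :
    ¬ (4 * e ^ 4 - -L) ^ 2 + (e ^ 3 - 2 * e) ^ 2 + (0 - 2 * e) ^ 2 < 1 := by
  have h1 : (4 * e ^ 4 - -L) ^ 2 + (e ^ 3 - 2 * e) ^ 2 + (0 - 2 * e) ^ 2 =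
      1 + 4 * e ^ 4 * (2 * L - 1) + 16 * e ^ 8 + e ^ 6 := by linear_combination hL
  have h2 : 0 ≤ 4 * e ^ 4 * (2 * L - 1) := mul_nonneg (by positivity) (by linarith)
  have h3 : 0 ≤ 16 * e ^ 8 + e ^ 6 := by positivity
  rw [h1]; linarith

theorem num_n2 {e L ρ : ℝ} (he : 0 < e) (hρ : 0 < ρ) (hL : L ^ 2 = 1 - 100 * e ^ 2) (hi : L ≤ 1) :
    ¬ (-(4 * e * ρ) - -L) ^ 2 + (-ρ - 6 * e) ^ 2 + (0 - 8 * e) ^ 2 < 1 := by
  have h1 : (-(4 * e * ρ) - -L) ^ 2 + (-ρ - 6 * e) ^ 2 + (0 - 8 * e) ^ 2 =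
      1 + 4 * e * ρ * (3 - 2 * L) + 16 * e ^ 2 * ρ ^ 2 + ρ ^ 2 := by linear_combination hL
  have h2 : 0 ≤ 4 * e * ρ * (3 - 2 * L) := mul_nonneg (by positivity) (by linarith)
  have h3 : 0 ≤ 16 * e ^ 2 * ρ ^ 2 + ρ ^ 2 := by positivity
  rw [h1]; linarith

theorem num_n3 {e L τ w : ℝ} (he : 0 < e) (hτ : 0 < τ) (τhi : τ ≤ 9 * e ^ 2) (hw : 0 ≤ w)
    (hL : L ^ 2 = 1 - 8 * e ^ 2) (hi : L ≤ 1) :
    ¬ (-τ - -L) ^ 2 + (w + 7 * e - 2 * e) ^ 2 + (0 - 2 * e) ^ 2 < 1 := by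
  have h1 : (-τ - -L) ^ 2 + (w + 7 * e - 2 * e) ^ 2 + (0 - 2 * e) ^ 2 =
      1 + τ ^ 2 + 2 * τ * (1 - L) - 2 * τ + 21 * e ^ 2 + w ^ 2 + 10 * e * w := by
    linear_combination hL
  have h2 : 0 ≤ 2 * τ * (1 - L) := mul_nonneg (by positivity) (by linarith)
  have h3 : 0 ≤ τ ^ 2 + w ^ 2 + 10 * e * w + e ^ 2 := by positivity
  have h4 : 0 ≤ e ^ 2 := by positivity
  rw [h1]; linarith

theorem num_n4 {e L τ w : ℝ} (he : 0 < e) (hτ : 0 < τ) (τhi : τ ≤ 9 * e ^ 2) (hw : w ≤ e)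
    (hL : L ^ 2 = 1 - 100 * e ^ 2) (hi : L ≤ 1) :
    ¬ (-τ - -L) ^ 2 + (w - 7 * e - 6 * e) ^ 2 + (0 - 8 * e) ^ 2 < 1 := by
  have h1 : (-τ - -L) ^ 2 + (w - 7 * e - 6 * e) ^ 2 + (0 - 8 * e) ^ 2 =
      1 + τ ^ 2 + 2 * τ * (1 - L) - 2 * τ + 107 * e ^ 2 + w ^ 2 + 26 * e * (e - w) := by
    linear_combination hL
  have h2 : 0 ≤ 2 * τ * (1 - L) := mul_nonneg (by positivity) (by linarith)
  have h2' : 0 ≤ 26 * e * (e - w) := mul_nonneg (by positivity) (by linarith)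
  have h3 : 0 ≤ τ ^ 2 + w ^ 2 := by positivity
  have h4 : 0 ≤ e ^ 2 := by positivity
  rw [h1]; linarith

theorem num_n5 {x y z : ℝ} (h : 1 ≤ x) : ¬ x ^ 2 + y ^ 2 + z ^ 2 < 1 := by
  nlinarith [sq_nonneg y, sq_nonneg z]

theorem num_d4 {e L : ℝ} (he : 0 < e) (he' : e ^ 2 ≤ 1 / 2500) (hL : L ^ 2 = 1 - 100 * e ^ 2)
    (hi : L ≤ 1) : (4 * e ^ 4 - -L) ^ 2 + (e ^ 3 - 6 * e) ^ 2 + (0 - 8 * e) ^ 2 < 1 := by
  have h1 : (4 * e ^ 4 - -L) ^ 2 + (e ^ 3 - 6 * e) ^ 2 + (0 - 8 * e) ^ 2 =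
      1 - e ^ 4 * (12 - 8 * L - 16 * (e ^ 2) ^ 2 - e ^ 2) := by linear_combination hL
  have h0 : 0 < e ^ 2 := by positivity
  have h2 : 0 < e ^ 4 * (12 - 8 * L - 16 * (e ^ 2) ^ 2 - e ^ 2) :=
    mul_pos (by positivity) (by nlinarith)
  rw [h1]; linarith

theorem num_d6 {e L ρ : ℝ} (he : 0 < e) (he' : e ^ 2 ≤ 1 / 2500) (hρ : 0 < ρ) (ρhi : ρ ≤ e)
    (hL : L ^ 2 = 1 - 8 * e ^ 2) (lo : 9 / 10 ≤ L) :
    (-(4 * e * ρ) - -L) ^ 2 + (-ρ - 2 * e) ^ 2 + (0 - 2 * e) ^ 2 < 1 := by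
  have h1 : (-(4 * e * ρ) - -L) ^ 2 + (-ρ - 2 * e) ^ 2 + (0 - 2 * e) ^ 2 =
      1 - ρ * (e * (8 * L - 4) - 16 * e ^ 2 * ρ - ρ) := by linear_combination hL
  have h3 : e * (16 / 5) ≤ e * (8 * L - 4) := mul_le_mul_of_nonneg_left (by linarith) he.le
  have h4 : 16 * e ^ 2 * ρ ≤ ρ := by nlinarith
  have h2 : 0 < ρ * (e * (8 * L - 4) - 16 * e ^ 2 * ρ - ρ) := mul_pos hρ (by linarith)
  rw [h1]; linarith

theorem num_q {e : ℝ} (he : 0 < e) (he' : e ^ 2 ≤ 1 / 2500) :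
    (1 - 41 * e ^ 2) ^ 2 + (8 * e) ^ 2 + (2 * e) ^ 2 < 1 := by
  have h0 : 0 < e ^ 2 := by positivity
  have h1 : (1 - 41 * e ^ 2) ^ 2 + (8 * e) ^ 2 + (2 * e) ^ 2 =
      1 - e ^ 2 * (14 - 1681 * e ^ 2) := by ring
  have h2 : 0 < e ^ 2 * (14 - 1681 * e ^ 2) := mul_pos h0 (by linarith)
  rw [h1]; linarith

/-- The parameters of the sample. -/
structure Par (e L₁ L₂ ρ M τ w : ℝ) : Prop where
  he : 0 < e
  he1 : e ≤ 1 / 50
  hL₁ : L₁ ^ 2 = 1 - 100 * e ^ 2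
  L₁lo : 9 / 10 ≤ L₁
  L₁hi : L₁ ≤ 1
  hL₂ : L₂ ^ 2 = 1 - 8 * e ^ 2
  L₂lo : 9 / 10 ≤ L₂
  L₂hi : L₂ ≤ 1
  hρ : ρ = e ^ 3 * (1 + e ^ 2)
  hM : M = L₂ - L₁ / 4 + 2 * e ^ 2
  hτ : τ = 4 * e * ρ + 4 * e ^ 2 * (L₂ + (1 - 50 * e ^ 2))
  hw : w = 8 * e ^ 3 - ρ

theorem exists_par {e : ℝ} (he : 0 < e) (he1 : e ≤ 1 / 50) :
    ∃ L₁ L₂ ρ M τ w, Par e L₁ L₂ ρ M τ w := by
  have e2' : e ^ 2 ≤ 1 / 2500 := by nlinarith
  have e2p : 0 < e ^ 2 := by positivity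
  exact ⟨√(1 - 100 * e ^ 2), √(1 - 8 * e ^ 2), _, _, _, _, he, he1, Real.sq_sqrt (by linarith),
    Real.le_sqrt_of_sq_le (by linarith), Real.sqrt_le_one.2 (by linarith),
    Real.sq_sqrt (by linarith), Real.le_sqrt_of_sq_le (by linarith),
    Real.sqrt_le_one.2 (by linarith), rfl, rfl, rfl, rfl⟩

/-- Linear consequences, with the monomials treated as atoms. -/
structure Lin (e L₁ L₂ ρ M τ w e2 e3 e4 eρ : ℝ) : Prop where
  he : 0 < e
  he1 : e ≤ 1 / 50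
  e2p : 0 < e2
  e2le : e2 ≤ e / 50
  e3p : 0 < e3
  e3le : e3 ≤ e2 / 50
  e4p : 0 < e4
  e4le : e4 ≤ e2 / 2500
  L₁lo : 9 / 10 ≤ L₁
  L₁hi : L₁ ≤ 1
  L₂lo : 9 / 10 ≤ L₂
  L₂hi : L₂ ≤ 1
  ρlo : e3 ≤ ρ
  ρhi : ρ ≤ 2 * e3
  Mlo : 1 / 2 ≤ M
  Mhi : M ≤ 4 / 5
  eρp : 0 < eρ
  τlo : eρ ≤ τ
  τhi : τ ≤ 9 * e2
  wlo : 0 ≤ w
  whi : w ≤ e

theorem Par.lin {e L₁ L₂ ρ M τ w : ℝ} (h : Par e L₁ L₂ ρ M τ w) :
    Lin e L₁ L₂ ρ M τ w (e ^ 2) (e ^ 3) (e ^ 4) (4 * e * ρ) := by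
  obtain ⟨he, he1, -, L₁lo, L₁hi, -, L₂lo, L₂hi, hρ, hM, hτ, hw⟩ := h
  have e2 : e ^ 2 ≤ e / 50 := by nlinarith only [he, he1]
  have e2p : 0 < e ^ 2 := by positivity
  have e2' : e ^ 2 ≤ 1 / 2500 := by linarith only [e2, he1]
  have e3 : e ^ 3 ≤ e ^ 2 / 50 := by nlinarith only [e2p, he1]
  have e3p : 0 < e ^ 3 := by positivity
  have e4 : e ^ 4 ≤ e ^ 2 / 2500 := by nlinarith only [e2p, e2']
  have e4p : 0 < e ^ 4 := by positivity
  have ρlo : e ^ 3 ≤ ρ := by rw [hρ]; nlinarith only [e3p, e2p]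
  have ρhi : ρ ≤ 2 * e ^ 3 := by rw [hρ]; nlinarith only [e3p, e2']
  have eρ : 4 * e * ρ ≤ 8 * e ^ 4 := by nlinarith only [he, ρhi]
  have eρp : 0 < 4 * e * ρ := mul_pos (by positivity) (by linarith only [ρlo, e3p])
  have k1 : 0 ≤ 4 * e ^ 2 * (L₂ + (1 - 50 * e ^ 2)) :=
    mul_nonneg (by positivity) (by linarith only [L₂lo, e2'])
  have k2 : 4 * e ^ 2 * (L₂ + (1 - 50 * e ^ 2)) ≤ 4 * e ^ 2 * 2 :=
    mul_le_mul_of_nonneg_left (by linarith only [L₂hi, e2p]) (by positivity)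
  exact ⟨he, he1, e2p, e2, e3p, e3, e4p, e4, L₁lo, L₁hi, L₂lo, L₂hi, ρlo, ρhi, by linarith,
    by linarith, eρp, by linarith, by linarith, by linarith, by linarith⟩

namespace Par

variable {e L₁ L₂ ρ M τ w : ℝ} (h : Par e L₁ L₂ ρ M τ w)
include h

theorem n1 : ¬ (4 * e ^ 4 - -L₂) ^ 2 + (e ^ 3 - 2 * e) ^ 2 + (0 - 2 * e) ^ 2 < 1 :=
  num_n1 h.he h.hL₂ h.L₂lo
theorem n2 : ¬ (-(4 * e * ρ) - -L₁) ^ 2 + (-ρ - 6 * e) ^ 2 + (0 - 8 * e) ^ 2 < 1 :=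
  num_n2 h.he (h.lin.e3p.trans_le h.lin.ρlo) h.hL₁ h.L₁hi
theorem n3 : ¬ (-τ - -L₂) ^ 2 + (w + 7 * e - 2 * e) ^ 2 + (0 - 2 * e) ^ 2 < 1 :=
  num_n3 h.he (h.lin.eρp.trans_le h.lin.τlo) h.lin.τhi h.lin.wlo h.hL₂ h.L₂hi
theorem n4 : ¬ (-τ - -L₁) ^ 2 + (w - 7 * e - 6 * e) ^ 2 + (0 - 8 * e) ^ 2 < 1 :=
  num_n4 h.he (h.lin.eρp.trans_le h.lin.τlo) h.lin.τhi h.lin.whi h.hL₁ h.L₁hi
theorem e2' : e ^ 2 ≤ 1 / 2500 := by linarith only [h.lin.e2le, h.he1]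
theorem d4 : (4 * e ^ 4 - -L₁) ^ 2 + (e ^ 3 - 6 * e) ^ 2 + (0 - 8 * e) ^ 2 < 1 :=
  num_d4 h.he h.e2' h.hL₁ h.L₁hi
theorem d6 : (-(4 * e * ρ) - -L₂) ^ 2 + (-ρ - 2 * e) ^ 2 + (0 - 2 * e) ^ 2 < 1 :=
  num_d6 h.he h.e2' (h.lin.e3p.trans_le h.lin.ρlo)
    (by linarith only [h.lin.ρhi, h.lin.e3le, h.lin.e2le, h.he]) h.hL₂ h.L₂lo

end Par

namespace Lin

variable {e L₁ L₂ ρ M τ w e2 e3 e4 eρ : ℝ} (h : Lin e L₁ L₂ ρ M τ w e2 e3 e4 eρ)
include h

theorem misc : e ≤ |-M| ∧ -e < -τ ∧ 0 < e3 ∧ 0 < w + 7 * e ∧ -ρ < 0 ∧ w - 7 * e < 0 ∧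
    -L₁ < -τ ∧ -L₂ < -τ ∧ -τ ≤ 1 - 50 * e2 ∧ -τ ≤ 4 * e4 ∧ -τ ≤ -eρ ∧ -τ ≤ e ∧
    1 ≤ 1 - 50 * e2 - -L₁ ∧ 1 ≤ 1 - 50 * e2 - -L₂ ∧ 0 ≤ 1 - e2 ∧ 0 ≤ e - 50 * e2 := by
  obtain ⟨_, _, _, _, _, _, _, _, _, _, _, _, _, _, _, _, _, _, _, _, _⟩ := h
  rw [abs_neg, abs_of_pos (by linarith)]
  refine ⟨?_, ?_, ?_, ?_, ?_, ?_, ?_, ?_, ?_, ?_, ?_, ?_, ?_, ?_, ?_, ?_⟩ <;> linarith

theorem near : (|-M| ≤ 1 ∧ |(0 : ℝ)| ≤ 8 * e ∧ |(0 : ℝ)| ≤ 8 * e) ∧
    (|-L₁| ≤ 1 ∧ |6 * e| ≤ 8 * e ∧ |8 * e| ≤ 8 * e) ∧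
    (|-L₂| ≤ 1 ∧ |2 * e| ≤ 8 * e ∧ |2 * e| ≤ 8 * e) ∧
    (|1 - 50 * e2| ≤ 1 ∧ |(0 : ℝ)| ≤ 8 * e ∧ |2 * e| ≤ 8 * e) ∧
    (|4 * e4| ≤ 1 ∧ |e3| ≤ 8 * e ∧ |(0 : ℝ)| ≤ 8 * e) ∧
    (|-eρ| ≤ 1 ∧ |-ρ| ≤ 8 * e ∧ |(0 : ℝ)| ≤ 8 * e) ∧
    (|-τ| ≤ 1 ∧ |w + 7 * e| ≤ 8 * e ∧ |(0 : ℝ)| ≤ 8 * e) ∧
    (|-τ| ≤ 1 ∧ |w - 7 * e| ≤ 8 * e ∧ |(0 : ℝ)| ≤ 8 * e) ∧
    (|4 * e4| ≤ e / 2 ∧ |e3| ≤ e / 2) := by
  obtain ⟨_, _, _, _, _, _, _, _, _, _, _, _, _, _, _, _, _, _, _, _, _⟩ := h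
  simp only [abs_le]
  refine ⟨⟨⟨?_, ?_⟩, ⟨?_, ?_⟩, ?_, ?_⟩, ⟨⟨?_, ?_⟩, ⟨?_, ?_⟩, ?_, ?_⟩, ⟨⟨?_, ?_⟩, ⟨?_, ?_⟩, ?_, ?_⟩,
    ⟨⟨?_, ?_⟩, ⟨?_, ?_⟩, ?_, ?_⟩, ⟨⟨?_, ?_⟩, ⟨?_, ?_⟩, ?_, ?_⟩, ⟨⟨?_, ?_⟩, ⟨?_, ?_⟩, ?_, ?_⟩,
    ⟨⟨?_, ?_⟩, ⟨?_, ?_⟩, ?_, ?_⟩, ⟨⟨?_, ?_⟩, ⟨?_, ?_⟩, ?_, ?_⟩, ⟨?_, ?_⟩, ?_, ?_⟩ <;> linarith

theorem small :
    ((4 * e4 - -eρ) ^ 2 + (e3 - -ρ) ^ 2 + (0 - 0 : ℝ) ^ 2 < 1) ∧
    ((4 * e4 - -M) ^ 2 + (e3 - 0) ^ 2 + (0 - 0 : ℝ) ^ 2 < 1) ∧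
    ((-eρ - -M) ^ 2 + (-ρ - 0) ^ 2 + (0 - 0 : ℝ) ^ 2 < 1) ∧
    ((-M - -L₁) ^ 2 + (0 - 6 * e) ^ 2 + (0 - 8 * e) ^ 2 < 1) ∧
    ((-M - -L₂) ^ 2 + (0 - 2 * e) ^ 2 + (0 - 2 * e) ^ 2 < 1) ∧
    ((4 * e4 - -τ) ^ 2 + (e3 - (w + 7 * e)) ^ 2 + (0 - 0 : ℝ) ^ 2 < 1) ∧
    ((4 * e4 - -τ) ^ 2 + (e3 - (w - 7 * e)) ^ 2 + (0 - 0 : ℝ) ^ 2 < 1) ∧
    ((-eρ - -τ) ^ 2 + (-ρ - (w + 7 * e)) ^ 2 + (0 - 0 : ℝ) ^ 2 < 1) ∧
    ((-eρ - -τ) ^ 2 + (-ρ - (w - 7 * e)) ^ 2 + (0 - 0 : ℝ) ^ 2 < 1) ∧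
    ((-τ - -τ) ^ 2 + (w + 7 * e - (w - 7 * e)) ^ 2 + (0 - 0 : ℝ) ^ 2 < 1) := by
  obtain ⟨_, _, _, _, _, _, _, _, _, _, _, _, _, _, _, _, _, _, _, _, _⟩ := h
  refine ⟨?_, ?_, ?_, ?_, ?_, ?_, ?_, ?_, ?_, ?_⟩ <;>
    exact sq3_lt (a := 9 / 10) (b := 3 / 10) (c := 1 / 5) (by linarith) (by linarith)
      (by linarith) (by linarith) (by linarith) (by linarith) (by norm_num)

theorem nearq (hq : (1 - 41 * e2) ^ 2 + (8 * e) ^ 2 + (2 * e) ^ 2 < 1) :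
    ((1 - 50 * e2 - 4 * e4) ^ 2 + (0 - e3) ^ 2 + (2 * e - 0) ^ 2 < 1) ∧
    ((1 - 50 * e2 - -eρ) ^ 2 + (0 - -ρ) ^ 2 + (2 * e - 0) ^ 2 < 1) ∧
    ((1 - 50 * e2 - -τ) ^ 2 + (0 - (w + 7 * e)) ^ 2 + (2 * e - 0) ^ 2 < 1) ∧
    ((1 - 50 * e2 - -τ) ^ 2 + (0 - (w - 7 * e)) ^ 2 + (2 * e - 0) ^ 2 < 1) ∧
    ((1 - 50 * e2 - 0) ^ 2 + (0 - 0 : ℝ) ^ 2 + (2 * e - 0) ^ 2 < 1) := by
  obtain ⟨_, _, _, _, _, _, _, _, _, _, _, _, _, _, _, _, _, _, _, _, _⟩ := h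
  refine ⟨?_, ?_, ?_, ?_, ?_⟩ <;>
    exact sq3_lt (a := 1 - 41 * e2) (b := 8 * e) (c := 2 * e) (by linarith) (by linarith)
      (by linarith) (by linarith) (by linarith) (by linarith) hq

end Lin

end Pool.Agent.MP_937632_gt

end MrgPart4

-- marker of a merged file
example : 731051 + 425027 = 731051 + 425027 := rfl
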