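import Pool.Agent.MP_937632_gt.Num

/-!
The explicit sample.
-/

set_option autoImplicit false

open Set Metric
open scoped InnerProductSpace

namespace Pool.Agent.MP_937632_gt

theorem mem3 {E : Type*} [AddCommGroup E] [Module ℝ E] {K : Set E} (hK : Convex ℝ K) {u v w : E}
    (hu : u ∈ K) (hv : v ∈ K) (hw : w ∈ K) {a b c : ℝ} (ha : 0 ≤ a) (hb : 0 ≤ b) (hc : 0 ≤ c)
    (h : a + b + c = 1) : a • u + b • v + c • w ∈ K := by
  have := hK.sum_mem (t := (Finset.univ : Finset (Fin 3))) (w := ![a, b, c]) (z := ![u, v, w])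
    (by intro i _; fin_cases i <;> assumption) (by simpa [Fin.sum_univ_three] using h)
    (by intro i _; fin_cases i <;> assumption)
  simpa [Fin.sum_univ_three] using this

namespace Frame

variable {E : Type*} [NormedAddCommGroup E] [InnerProductSpace ℝ E] (φ : Frame E)

/-- Rescaled coordinates. -/
def Q (β t y z : ℝ) : E := φ.P (β * t) (β * y) (β * z)

theorem Q_dist_sq (β t y z t' y' z' : ℝ) : dist (φ.Q β t y z) (φ.Q β t' y' z') ^ 2 =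
    β ^ 2 * ((t - t') ^ 2 + (y - y') ^ 2 + (z - z') ^ 2) := by
  rw [Q, Q, dist_sq]; ring

theorem Q_lt {β : ℝ} (hβ : 0 < β) (t y z t' y' z' : ℝ) :
    dist (φ.Q β t y z) (φ.Q β t' y' z') < β ↔ (t - t') ^ 2 + (y - y') ^ 2 + (z - z') ^ 2 < 1 := by
  rw [← sq_lt_sq₀ dist_nonneg hβ.le, Q_dist_sq]
  exact mul_lt_iff_lt_one_right (by positivity)

theorem Q_le {β : ℝ} (hβ : 0 < β) (t y z t' y' z' r : ℝ) (hr : 0 ≤ r)
    (h : (t - t') ^ 2 + (y - y') ^ 2 + (z - z') ^ 2 ≤ r ^ 2) :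
    dist (φ.Q β t y z) (φ.Q β t' y' z') ≤ β * r := by
  rw [← sq_le_sq₀ dist_nonneg (by positivity), Q_dist_sq, mul_pow]
  exact mul_le_mul_of_nonneg_left h (by positivity)

theorem Q_comb (β : ℝ) {a b c : ℝ} (h : a + b + c = 1) (t y z t' y' z' t'' y'' z'' : ℝ) :
    a • φ.Q β t y z + b • φ.Q β t' y' z' + c • φ.Q β t'' y'' z'' =
      φ.Q β (a * t + b * t' + c * t'') (a * y + b * y' + c * y'') (a * z + b * z' + c * z'') := by
  have hc : c = 1 - a - b := by linarith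
  subst hc
  simp only [Q, P]
  module

theorem comb₁ {e L₁ L₂ ρ M τ w : ℝ} (h : Par e L₁ L₂ ρ M τ w) (β : ℝ) :
    φ.Q β ((-(4 * e * ρ) - 4 * e ^ 2 * L₂) / (1 + 4 * e ^ 2)) (w / (1 + 4 * e ^ 2))
      (8 * e ^ 3 / (1 + 4 * e ^ 2)) ∈ convexHull ℝ {φ.Q β (-L₁) (6 * e) (8 * e),
      φ.Q β (4 * e ^ 4) (e ^ 3) 0, φ.Q β (-M) 0 0} := by
  have hη : 0 < 1 + 4 * e ^ 2 := by positivity
  have := mem3 (convex_convexHull ℝ {φ.Q β (-L₁) (6 * e) (8 * e), φ.Q β (4 * e ^ 4) (e ^ 3) 0,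
    φ.Q β (-M) 0 0}) (subset_convexHull ℝ _ (mem_insert _ _))
    (subset_convexHull ℝ _ (mem_insert_of_mem _ (mem_insert _ _)))
    (subset_convexHull ℝ _ (mem_insert_of_mem _ (mem_insert_of_mem _ (mem_singleton _))))
    (a := e ^ 2 / (1 + 4 * e ^ 2)) (b := (1 - e ^ 2) / (1 + 4 * e ^ 2))
    (c := 4 * e ^ 2 / (1 + 4 * e ^ 2)) (by positivity)
    (div_nonneg (by linarith only [h.e2']) hη.le) (by positivity) (by field_simp; ring)
  rw [φ.Q_comb β (by field_simp; ring)] at this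
  convert this using 2
  · rw [h.hM, h.hρ]; field_simp; ring
  · rw [h.hw, h.hρ]; field_simp; ring
  · field_simp; ring

theorem comb₂ {e L₁ L₂ ρ M τ w : ℝ} (h : Par e L₁ L₂ ρ M τ w) (β : ℝ) :
    φ.Q β ((-(4 * e * ρ) - 4 * e ^ 2 * L₂) / (1 + 4 * e ^ 2)) (w / (1 + 4 * e ^ 2))
      (8 * e ^ 3 / (1 + 4 * e ^ 2)) ∈ convexHull ℝ {φ.Q β (-L₂) (2 * e) (2 * e),
      φ.Q β (-(4 * e * ρ)) (-ρ) 0, φ.Q β (-M) 0 0} := by
  have hη : 0 < 1 + 4 * e ^ 2 := by positivity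
  have := mem3 (convex_convexHull ℝ {φ.Q β (-L₂) (2 * e) (2 * e), φ.Q β (-(4 * e * ρ)) (-ρ) 0,
    φ.Q β (-M) 0 0}) (subset_convexHull ℝ _ (mem_insert _ _))
    (subset_convexHull ℝ _ (mem_insert_of_mem _ (mem_insert _ _)))
    (subset_convexHull ℝ _ (mem_insert_of_mem _ (mem_insert_of_mem _ (mem_singleton _))))
    (a := 4 * e ^ 2 / (1 + 4 * e ^ 2)) (b := 1 / (1 + 4 * e ^ 2))
    (c := 0) (by positivity) (by positivity) le_rfl (by field_simp; ring)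
  rw [φ.Q_comb β (by field_simp; ring)] at this
  convert this using 2
  · field_simp; ring
  · rw [h.hw]; field_simp; ring
  · field_simp; ring

theorem comb₃ {e L₁ L₂ ρ M τ w : ℝ} (h : Par e L₁ L₂ ρ M τ w) (β : ℝ) :
    φ.Q β ((-(4 * e * ρ) - 4 * e ^ 2 * L₂) / (1 + 4 * e ^ 2)) (w / (1 + 4 * e ^ 2))
      (8 * e ^ 3 / (1 + 4 * e ^ 2)) ∈ convexHull ℝ {φ.Q β (1 - 50 * e ^ 2) 0 (2 * e),
      φ.Q β (4 * e ^ 4) (e ^ 3) 0, φ.Q β (-(4 * e * ρ)) (-ρ) 0, φ.Q β (-τ) (w + 7 * e) 0,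
      φ.Q β (-τ) (w - 7 * e) 0} := by
  have hη : 0 < 1 + 4 * e ^ 2 := by positivity
  have := mem3 (convex_convexHull ℝ {φ.Q β (1 - 50 * e ^ 2) 0 (2 * e),
    φ.Q β (4 * e ^ 4) (e ^ 3) 0, φ.Q β (-(4 * e * ρ)) (-ρ) 0, φ.Q β (-τ) (w + 7 * e) 0,
    φ.Q β (-τ) (w - 7 * e) 0}) (u := φ.Q β (1 - 50 * e ^ 2) 0 (2 * e))
    (v := φ.Q β (-τ) (w + 7 * e) 0) (w := φ.Q β (-τ) (w - 7 * e) 0)
    (subset_convexHull ℝ _ (by simp)) (subset_convexHull ℝ _ (by simp))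
    (subset_convexHull ℝ _ (by simp))
    (a := 4 * e ^ 2 / (1 + 4 * e ^ 2)) (b := 1 / 2 / (1 + 4 * e ^ 2))
    (c := 1 / 2 / (1 + 4 * e ^ 2)) (by positivity) (by positivity) (by positivity)
    (by field_simp; ring)
  rw [φ.Q_comb β (by field_simp; ring)] at this
  convert this using 2
  · rw [h.hτ]; field_simp; ring
  · field_simp; ring
  · field_simp; ring

theorem base_cases {β e : ℝ} (hβ : 0 < β) (he : 0 < e) {v : E}
    (hv : v ∈ range φ.curve \ ball (φ.Q β 0 0 0) (β * e)) :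
    (∃ t, e ≤ |t| ∧ v = φ.Q β t 0 0) ∨ (⟪φ.e₂, v⟫_ℝ = 0 ∧ 1 ≤ dist v (φ.Q β 0 0 0)) := by
  rcases φ.curve_cases hv.1 with ⟨t, rfl⟩ | h
  · left
    have ht : φ.P t 0 0 = φ.Q β (t / β) 0 0 := by
      rw [Q, mul_div_cancel₀ _ hβ.ne', mul_zero]
    refine ⟨t / β, ?_, ht⟩
    by_contra hcon
    apply hv.2
    rw [mem_ball, ht]
    rw [← sq_lt_sq₀ dist_nonneg (by positivity), Q_dist_sq, mul_pow]
    apply mul_lt_mul_of_pos_left _ (by positivity)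
    have := (sq_lt_sq₀ (abs_nonneg _) he.le).2 (not_le.1 hcon)
    rw [sq_abs] at this
    linarith
  · right
    simpa [Q] using h

theorem near_curve {β δ e : ℝ} (hβ : 0 < β) (hβ' : β ≤ 1 / 2) (he : 0 < e) (heδ : e ≤ δ / 20)
    {t y z : ℝ} (h : |t| ≤ 1 ∧ |y| ≤ 8 * e ∧ |z| ≤ 8 * e) :
    ∃ x ∈ range φ.curve, dist (φ.Q β t y z) x ≤ δ / 2 := by
  have h0 := φ.line_mem (t := β * t)
    (by rw [abs_mul, abs_of_pos hβ]; nlinarith [abs_nonneg t, h.1])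
  have h1 : φ.Q β t 0 0 ∈ range φ.curve := by simpa [Q] using h0
  have h2 := sq_le_sq' (abs_le.1 h.2.1).1 (abs_le.1 h.2.1).2
  have h3 := sq_le_sq' (abs_le.1 h.2.2).1 (abs_le.1 h.2.2).2
  refine ⟨_, h1, (φ.Q_le hβ _ _ _ _ _ _ (12 * e) (by positivity)
    (by nlinarith only [h2, h3, sq_nonneg e])).trans ?_⟩
  nlinarith only [hβ, hβ', he, heδ]

theorem near_origin {β δ e : ℝ} (hβ : 0 < β) (hβ' : β ≤ 1 / 2) (he : 0 < e) (heδ : e ≤ δ / 20)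
    {t y : ℝ} (h : |t| ≤ e / 2 ∧ |y| ≤ e / 2) {x : E} (hx : x ∈ ball (φ.Q β 0 0 0) (β * e)) :
    dist x (φ.Q β t y 0) ≤ δ / 2 := by
  have h2 := sq_le_sq' (abs_le.1 h.1).1 (abs_le.1 h.1).2
  have h3 := sq_le_sq' (abs_le.1 h.2).1 (abs_le.1 h.2).2
  have h1 := φ.Q_le hβ 0 0 0 t y 0 e he.le (by nlinarith only [h2, h3, sq_nonneg e])
  have h4 := dist_triangle x (φ.Q β 0 0 0) (φ.Q β t y 0)
  rw [mem_ball] at hx
  nlinarith only [hβ, hβ', he, heδ, h1, h4, hx]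

omit [InnerProductSpace ℝ E] in
theorem far {β : ℝ} (hβ' : β ≤ 1 / 2) {v u o : E} (h1 : 1 ≤ dist v o) (h2 : dist u o ≤ β * 1) :
    ¬ dist v u < β := by
  intro h3
  have := dist_triangle v u o
  linarith

theorem exists_sample {β δ : ℝ} (hβ : 0 < β) (hβ' : β ≤ 1 / 2) (hδ : 0 < δ) :
    ∃ S : Set E, S.Finite ∧ S.Nonempty ∧ hausdorffDist S (range φ.curve) < δ ∧
      IsEmpty (ContinuousMap.HomotopyEquiv (shadow β S) (range φ.curve)) := by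
  obtain ⟨e, he, he1, he2⟩ : ∃ e : ℝ, 0 < e ∧ e ≤ 1 / 50 ∧ e ≤ δ / 20 :=
    ⟨min (1 / 50) (δ / 20), by positivity, min_le_left _ _, min_le_right _ _⟩
  obtain ⟨L₁, L₂, ρ, M, τ, w, h⟩ := exists_par he he1
  have hcomp : IsCompact (range φ.curve) := by
    rw [← φ.periodic_curve.image_Icc one_pos 0]
    exact isCompact_Icc.image φ.contDiff_curve.continuous
  obtain ⟨F, hFsub, hFfin, hFcov⟩ := (hcomp.diff (isOpen_ball (x := φ.Q β 0 0 0)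
    (ε := β * e))).finite_cover_balls (half_pos hδ)
  let S : Set E := insert (φ.Q β (-M) 0 0) F ∪ {φ.Q β (-L₁) (6 * e) (8 * e),
    φ.Q β (-L₂) (2 * e) (2 * e), φ.Q β (1 - 50 * e ^ 2) 0 (2 * e), φ.Q β (4 * e ^ 4) (e ^ 3) 0,
    φ.Q β (-(4 * e * ρ)) (-ρ) 0, φ.Q β (-τ) (w + 7 * e) 0, φ.Q β (-τ) (w - 7 * e) 0}
  have hSfin : S.Finite := (hFfin.insert _).union (toFinite _)
  refine ⟨S, hSfin, ⟨_, Or.inl (mem_insert _ _)⟩, ?_, ?_⟩
  · obtain ⟨k0, k1, k2, k3, k4, k5, k6, k7, k8⟩ := h.lin.near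
    refine (hausdorffDist_le_of_mem_dist (r := δ / 2) (half_pos hδ).le ?_ ?_).trans_lt
      (half_lt_self hδ)
    · rintro x ((rfl | hx) | rfl | rfl | rfl | rfl | rfl | rfl | rfl)
      · exact φ.near_curve hβ hβ' he he2 k0
      · exact ⟨x, (hFsub hx).1, by rw [dist_self]; positivity⟩
      all_goals exact φ.near_curve hβ hβ' he he2 (by assumption)
    · intro x hx
      by_cases h : x ∈ ball (φ.Q β 0 0 0) (β * e)
      · exact ⟨φ.Q β (4 * e ^ 4) (e ^ 3) 0, Or.inr (by simp), φ.near_origin hβ hβ' he he2 k8 h⟩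
      · obtain ⟨y, hy, hxy⟩ := mem_iUnion₂.1 (hFcov ⟨hx, h⟩)
        exact ⟨y, Or.inl (mem_insert_of_mem _ hy), (mem_ball.1 hxy).le⟩
  obtain ⟨m0, m1, m2, m3, m4, m5, m6, m7, m8, m9, m10, m11, m12, m13, -, m15⟩ := h.lin.misc
  obtain ⟨s1, s2, s3, s4, s5, s6, s7, s8, s9, s10⟩ := h.lin.small
  obtain ⟨q1, q2, q3, q4, q5⟩ := h.lin.nearq (num_q he h.e2')
  have hbase : ∀ v ∈ insert (φ.Q β (-M) 0 0) F, (∃ t, e ≤ |t| ∧ v = φ.Q β t 0 0) ∨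
      (⟪φ.e₂, v⟫_ℝ = 0 ∧ 1 ≤ dist v (φ.Q β 0 0 0)) := by
    rintro v (rfl | hv)
    · exact Or.inl ⟨-M, m0, rfl⟩
    · exact φ.base_cases hβ he (hFsub hv)
  have iT : ∀ t y z, innerₗ E φ.e₁ (φ.Q β t y z) = β * t := fun t y z => φ.inner₁ _ _ _
  have iY : ∀ t y z, innerₗ E φ.e₀ (φ.Q β t y z) = 1 + β * y := fun t y z => φ.inner₀ _ _ _
  have iZ : ∀ t y z, innerₗ E φ.e₂ (φ.Q β t y z) = β * z := fun t y z => φ.inner₂ _ _ _
  have mlt : ∀ {a b : ℝ}, a < b → β * a < β * b := fun h => mul_lt_mul_of_pos_left h hβ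
  have mle : ∀ {a b : ℝ}, a ≤ b → β * a ≤ β * b := fun h => mul_le_mul_of_nonneg_left h hβ.le
  have Bp : ∀ L y z, 9 / 10 ≤ L → L ^ 2 + y ^ 2 + z ^ 2 = 1 →
      ∀ v ∈ insert (φ.Q β (-M) 0 0) F, dist v (φ.Q β (-L) y z) < β →
      innerₗ E φ.e₀ v = 1 ∧ innerₗ E φ.e₁ v < β * (-τ) := by
    intro L y z hL hLyz v hv hd
    rcases hbase v hv with ⟨t, ht, rfl⟩ | h
    · rw [φ.Q_lt hβ] at hd
      rw [iT, iY]
      refine ⟨by ring, mlt ?_⟩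
      have ht0 : t < 0 := by nlinarith only [sq_nonneg t, hL, hLyz, hd]
      rw [abs_of_neg ht0] at ht
      linarith only [ht, m1]
    · exact absurd hd (far hβ' h.2 (φ.Q_le hβ _ _ _ _ _ _ 1 zero_le_one
        (by linarith only [hLyz])))
  refine shadow_not_equiv φ.curve φ.contDiff_curve.continuous φ.periodic_curve φ.injOn_curve β hβ
    S (insert (φ.Q β (-M) 0 0) F) hSfin (innerₗ E φ.e₁) (innerₗ E φ.e₀) (innerₗ E φ.e₂)
    (β * (-τ)) 1 (φ.Q β (-L₁) (6 * e) (8 * e)) (φ.Q β (-L₂) (2 * e) (2 * e))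
    (φ.Q β (1 - 50 * e ^ 2) 0 (2 * e)) (φ.Q β (4 * e ^ 4) (e ^ 3) 0)
    (φ.Q β (-(4 * e * ρ)) (-ρ) 0) (φ.Q β (-τ) (w + 7 * e) 0) (φ.Q β (-τ) (w - 7 * e) 0)
    (φ.Q β (-M) 0 0) _
    (fun v => by simp only [S, mem_union, mem_insert_iff, mem_singleton_iff])
    (mem_insert _ _) ?hZ
    (by rw [iZ]; positivity) (by rw [iZ]; positivity) (by rw [iZ, mul_zero]) (by rw [iZ, mul_zero])
    (by rw [iZ, mul_zero]) (by rw [iZ, mul_zero])
    (by rw [iY]; linarith only [mul_pos hβ m2]) (by rw [iY]; linarith only [mul_pos hβ m3])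
    (by rw [iY]; linarith only [mlt m4]) (by rw [iY]; linarith only [mlt m5])
    (Bp _ _ _ h.L₁lo (by linarith only [h.hL₁])) (Bp _ _ _ h.L₂lo (by linarith only [h.hL₂])) ?Bq
    (by rw [iT]; exact mlt m6) (by rw [iT]; exact mlt m7)
    (by rw [iT]; exact mle m8) (by rw [iT]; exact mle m9)
    (by rw [iT]; exact mle m10) (by rw [iT]) (by rw [iT])
    (by rw [φ.Q_lt hβ]; exact h.n1) (by rw [φ.Q_lt hβ]; exact h.n2)
    (by rw [φ.Q_lt hβ]; exact h.n3) (by rw [φ.Q_lt hβ]; exact h.n4)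
    (by rw [φ.Q_lt hβ]; exact num_n5 m12) (by rw [φ.Q_lt hβ]; exact num_n5 m13)
    (by rw [φ.Q_lt hβ]; exact s1) (by rw [φ.Q_lt hβ]; exact s2) (by rw [φ.Q_lt hβ]; exact s3)
    (by rw [φ.Q_lt hβ]; exact h.d4) (by rw [φ.Q_lt hβ]; exact s4) (by rw [φ.Q_lt hβ]; exact h.d6)
    (by rw [φ.Q_lt hβ]; exact s5) (by rw [φ.Q_lt hβ]; exact q1) (by rw [φ.Q_lt hβ]; exact q2)
    (by rw [φ.Q_lt hβ]; exact q3) (by rw [φ.Q_lt hβ]; exact q4) (by rw [φ.Q_lt hβ]; exact s6)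
    (by rw [φ.Q_lt hβ]; exact s7) (by rw [φ.Q_lt hβ]; exact s8) (by rw [φ.Q_lt hβ]; exact s9)
    (by rw [φ.Q_lt hβ]; exact s10) (φ.comb₁ h β) (φ.comb₂ h β) (φ.comb₃ h β)
  case hZ =>
    intro v hv
    rcases hbase v hv with ⟨t, -, rfl⟩ | h
    · rw [iZ, mul_zero]
    · exact h.1
  case Bq =>
    intro v hv hd
    rcases hbase v hv with ⟨t, ht, rfl⟩ | h
    · rw [φ.Q_lt hβ] at hd
      rw [iT]
      apply mle
      rcases le_abs.1 ht with h | h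
      · exact m11.trans h
      · exfalso
        refine num_n5 (x := -(t - (1 - 50 * e ^ 2))) (y := 0 - 0) (z := 0 - 2 * e)
          (by linarith only [h, m15]) ?_
        rwa [neg_sq]
    · exact absurd hd (far hβ' h.2 (φ.Q_le hβ _ _ _ _ _ _ 1 zero_le_one
        (by linarith only [q5])))

end Frame

end Pool.Agent.MP_937632_gt
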